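import Mathlib

/-!
# Project WT: coefficients of cusp forms of weight `3/2`, uniformly in the level and in the form

Row MP_af11aa_nt (Ramanujan bound for the coefficients of cusp forms of weight `3/2`). THEOREM: for all levels `N` divisible by
`4`, all characters modulo `N` and all choices of forms `f_n` of Petersson norm at most `1` in `S_{3/2}(N, χ)`, one form for each `n`,
the sum of `|a_{f_n}(n)|^2` over `n ≤ X` is at most `C X^(3/2) (1 + log X)` with an ABSOLUTE constant `C`. So outside a set with a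
power saving the bound `|a_f(n)| ≤ ‖f‖ n^(1/4 + η)` holds for all `N ≤ n^δ`, all `χ` and all `f` at once.

The statements are the propositions `S_...`; complete proofs are in the docstrings. Put a package in its own file
`Pool/Agent/P8H<your number>/WT/<Name>.lean` (import this file), with a theorem of the exact type given in the task table.
-/

set_option autoImplicit false

open UpperHalfPlane MeasureTheory CongruenceSubgroup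
open scoped MatrixGroups

namespace Pool.Agent.P8H49.WT

/-- `ε_d` for odd `d`: `1` or `i` -/
noncomputable def eps (d : ℤ) : ℂ := if d % 4 = 1 then 1 else Complex.I

/-- Shimura's quadratic residue symbol `(c / d)` for odd `d` -/
def sym (c d : ℤ) : ℤ := if c < 0 ∧ d < 0 then -jacobiSym c d.natAbs else jacobiSym c d.natAbs

/-- the theta multiplier `j(γ, z) = ε_d⁻¹ (c / d) (c z + d)^(1/2)` (principal branch), `(c, d)` the lower row of `γ ∈ Γ₀(4)` -/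
noncomputable def jt (c d : ℤ) (z : ℍ) : ℂ := (sym c d : ℂ) * (eps d)⁻¹ * ((c : ℂ) * z + d) ^ (1 / 2 : ℂ)

/-- the transformation law `f (γ z) = χ(d) j(γ, z)^3 f(z)` for `γ ∈ Γ₀(N)` -/
def Law (N : ℕ) (χ : DirichletCharacter ℂ N) (f : ℍ → ℂ) : Prop :=
  ∀ γ ∈ Gamma0 N, ∀ z : ℍ, f (γ • z) = χ ((γ 1 1 : ℤ) : ZMod N) * jt (γ 1 0) (γ 1 1) z ^ 3 * f z

/-- `f(z) = ∑ a_n e(n z)` -/
def Expansion (f : ℍ → ℂ) (a : ℕ → ℂ) : Prop :=
  ∀ z : ℍ, HasSum (fun n : ℕ => a n * Complex.exp (2 * Real.pi * Complex.I * n * (z : ℂ))) (f z)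

/-- `f` is a cusp form in `S_{3/2}(N, χ)` with the coefficients `a` (`4 ∣ N`); a form with the transformation law is a cusp form
if and only if `|f(z)| (Im z)^(3/4)` is bounded -/
structure IsCusp (N : ℕ) (χ : DirichletCharacter ℂ N) (f : ℍ → ℂ) (a : ℕ → ℂ) : Prop where
  expansion : Expansion f a
  law : Law N χ f
  bounded : ∃ C : ℝ, ∀ z : ℍ, ‖f z‖ * z.im ^ (3 / 4 : ℝ) ≤ C

/-- the function `|f(z)|^2 (Im z)^(3/2)` -/
noncomputable def G (f : ℍ → ℂ) (z : ℍ) : ℝ := ‖f z‖ ^ 2 * z.im ^ (3 / 2 : ℝ)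

/-- `G f` is invariant under `Γ₀(N)` -/
def Inv (N : ℕ) (f : ℍ → ℂ) : Prop := ∀ γ ∈ Gamma0 N, ∀ z : ℍ, G f (γ • z) = G f z

/-- the square of the Petersson norm: the integral of `|f(z)|^2 y^(3/2) dx dy / y^2` over a fundamental domain of `Γ₀(N)`,
which is the union of the translates `g⁻¹ 𝒟` of the standard fundamental domain of `SL₂(ℤ)`, `g` in a system of
representatives of `SL₂(ℤ) / Γ₀(N)` -/
noncomputable def nrm (N : ℕ) (f : ℍ → ℂ) : ENNReal :=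
  ∑' q : SL(2, ℤ) ⧸ Gamma0 N, ∫⁻ z in ModularGroup.fd, ENNReal.ofReal (G f (q.out⁻¹ • z))

/-- holomorphic -/
def Hol (f : ℍ → ℂ) : Prop := DifferentiableOn ℂ (fun z : ℂ => f (ofComplex z)) {z : ℂ | 0 < z.im}

/-- INV (60 lines). `|χ(d)| = 1` and `sym c d = ± 1`, as `c d` is the lower row of `γ ∈ Γ₀(N)` (so `gcd(c, d) = 1`, `d` is odd and
prime to `N`), `|eps d| = 1`, so `|f(γ z)| = |c z + d|^(3/2) |f(z)|`; and `Im (γ z) = Im z / |c z + d|^2`. -/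
def S_INV : Prop := ∀ (N : ℕ) (χ : DirichletCharacter ℂ N) (f : ℍ → ℂ), 0 < N → 4 ∣ N → Law N χ f → Inv N f

/-- HOL (50 lines). Locally uniform convergence: a power series in `q = e(z)`, `|q| < 1`, which converges for all `|q| < 1`. -/
def S_HOL : Prop := ∀ (f : ℍ → ℂ) (a : ℕ → ℂ), Expansion f a → Hol f

/-- COF (70 lines). The coefficients: the series converges uniformly in `x` (absolutely, as it is summable; the norms do not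
depend on `x`), integrate term by term. -/
def S_COF : Prop := ∀ (f : ℍ → ℂ) (a : ℕ → ℂ), Expansion f a → ∀ y : ℝ, 0 < y → ∀ n : ℕ,
  ∫ x in (0 : ℝ)..1, f (ofComplex (x + y * Complex.I)) * Complex.exp (-(2 * Real.pi * Complex.I * n * x)) =
    a n * Complex.exp (-(2 * Real.pi * n * y))

/-- UNF (150 lines), unfolding. `B ⊆ ⋃ γ, γ • fd` (`ModularGroup.exists_smul_mem_fd`), `SL(2, ℤ)` is countable and its action
preserves the measure. So `∫_B G ≤ ∑_γ ∫_{γ fd} 1_B G = ∑_γ ∫_{fd} 1_B(γ w) G(γ w) dw`. If `γ⁻¹ = q.out * δ`, `δ ∈ Γ₀(N)`, then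
`G (γ w) = G (q.out⁻¹ w)` by `Inv`. Sort the `γ` by the class `q` of `γ⁻¹`: the sum is
`∑_q ∫_{fd} G (q.out⁻¹ w) #{γ : [γ⁻¹] = q, γ w ∈ B} dw ≤ M ∑_q ∫_{fd} G (q.out⁻¹ w) dw`. (Continuity of `f` for measurability.) -/
def S_UNF : Prop := ∀ (N : ℕ) (f : ℍ → ℂ), 0 < N → Continuous f → Inv N f → ∀ (B : Set ℍ) (M : ℝ), MeasurableSet B →
  (∀ w ∈ ModularGroup.fd, {γ : SL(2, ℤ) | γ • w ∈ B}.Finite ∧ ({γ : SL(2, ℤ) | γ • w ∈ B}.ncard : ℝ) ≤ M) →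
    ∫⁻ z in B, ENNReal.ofReal (G f z) ≤ ENNReal.ofReal M * nrm N f

/-- CNT (150 lines). `y₀ = Im w₀ ≥ √3 / 2`, `v = Im w ≥ √3 / 2`, lower row `(c, d)` of `γ`: `Im (γ w) ≥ y₀ / 2` gives
`|c w + d|^2 = v / Im (γ w) ≤ 2 v / y₀`. So `c^2 v^2 ≤ 2 v / y₀` and `c^2 ≤ 8 / 3`, `|c| ≤ 1`. If `c = 0`, then `γ = ± T^k`; if
`c = ± 1`, then `v^2 ≤ 2 v / y₀`, `(c u + d)^2 ≤ 2 v / y₀ ≤ 4 / y₀^2 ≤ 16 / 3` and `|u| ≤ 1 / 2` give `|d| ≤ 2`. Two `γ` with the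
same lower row differ by `T^k` on the left, and `Re (γ w)` is in an open interval of length `y₀`, so there are at most `y₀ + 1` for each
lower row. Total: at most `12 (y₀ + 1) ≤ 26 y₀`. -/
def S_CNT : Prop := ∀ w₀ ∈ ModularGroup.fd, ∀ w ∈ ModularGroup.fd,
  {γ : SL(2, ℤ) | ‖((γ • w : ℍ) : ℂ) - (w₀ : ℂ)‖ < w₀.im / 2}.Finite ∧
    ({γ : SL(2, ℤ) | ‖((γ • w : ℍ) : ℂ) - (w₀ : ℂ)‖ < w₀.im / 2}.ncard : ℝ) ≤ 100 * w₀.im

/-- SMV (80 lines). Mean value property on circles (`Complex.circleIntegral…`, Cauchy formula), integrated over the radius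
(polar coordinates). -/
def S_SMV : Prop := ∀ (h : ℂ → ℂ) (w : ℂ) (r : ℝ), 0 < r → DifferentiableOn ℂ h (Metric.ball w (2 * r)) →
  ENNReal.ofReal (Real.pi * r ^ 2 * ‖h w‖) ≤ ∫⁻ z in Metric.ball w r, ENNReal.ofReal ‖h z‖

/-- PTW (150 lines). `w₀ = γ z ∈ fd`, `y₀ = Im w₀`, `κ = γ⁻¹` with lower row `(c, d)`. The function
`h(w) = f(κ w)^2 / (c w + d)^3` is holomorphic on the upper half plane and `|h(w)| = G(κ w) (Im w)^(-3/2)`
(`Im (κ w) = Im w / |c w + d|^2`). SMV with `r = y₀ / 2`: `π (y₀^2 / 4) G(z) y₀^(-3/2) ≤ ∫_B |h| dA`, `B` the disc of radius `y₀ / 2`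
about `w₀`; and `dA = (Im w)^2 dμ`, `∫_B |h| dA = ∫_B G(κ w) (Im w)^(1/2) dμ ≤ (3 y₀ / 2)^(1/2) ∫_B G(κ w) dμ`. So
`G(z) ≤ 2 ∫_B G(κ w) dμ(w) = 2 ∫_{κ B} G dμ`, and this is at most `2 * 100 y₀ * nrm N f` by UNF and CNT for the set `κ B`
(`γ' w ∈ κ B` if and only if `κ⁻¹ γ' w ∈ B`). -/
def S_PTW : Prop := ∀ (N : ℕ) (f : ℍ → ℂ), 0 < N → Hol f → Inv N f → ∀ (z : ℍ) (γ : SL(2, ℤ)), γ • z ∈ ModularGroup.fd →
  ENNReal.ofReal (G f z) ≤ ENNReal.ofReal (200 * (γ • z).im) * nrm N f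

/-- a bound for the height of `x + i y` -/
noncomputable def U (x y : ℝ) : ℝ := y + ∑ c ∈ Finset.Icc 1 ⌊2 / √y⌋₊, ∑ d ∈ Finset.Icc (-(c : ℤ) - 3) 3,
  y / (((c : ℝ) * x + d) ^ 2 + ((c : ℝ) * y) ^ 2)

/-- HTB (80 lines). Lower row `(c, d)` of `γ`. If `c = 0`, then `Im (γ z) = y`. Otherwise we may assume `c > 0`;
`Im (γ z) = y / ((c x + d)^2 + c^2 y^2) ≥ √3 / 2` gives `(c x + d)^2 + c^2 y^2 ≤ 2 y / √3`, so `c ≤ 2 / √y` and
`|c x + d| ≤ 2`, `-c - 3 ≤ d ≤ 3`, and `Im (γ z)` is one of the summands, which are all nonnegative. -/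
def S_HTB : Prop := ∀ z : ℍ, 0 ≤ z.re → z.re ≤ 1 → z.im ≤ 1 → ∀ γ : SL(2, ℤ), γ • z ∈ ModularGroup.fd →
  (γ • z).im ≤ U z.re z.im

/-- HTI (100 lines). The integral of `y / ((c x + d)^2 + c^2 y^2)` over `[0, 1]` is a difference of values of `arctan`, divided by `c^2`,
so at most `π / c^2`; there are `c + 7 ≤ 8 c` values of `d`, and the sum of `1 / c` over `c ≤ 2 / √y` is at most
`1 + log (2 / √y)`. -/
def S_HTI : Prop := ∀ y : ℝ, 0 < y → y ≤ 1 → ∫ x in (0 : ℝ)..1, U x y ≤ 100 * (1 - Real.log y)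

/-- DUAL (250 lines). Let `b n = exp(-2 π n y) * conj (a n n)`, `F_x = ∑_{n ∈ S} b n * e(-n x) • f n` and
`S₀ = ∑_{n ∈ S} ‖a n n‖^2 * exp(-4 π n y)`. `F_x` satisfies `Law N χ` and is holomorphic. By INV, PTW and HTB (with `γ` from
`ModularGroup.exists_smul_mem_fd`), `‖F_x(x + i y)‖^2 y^(3/2) ≤ 200 U(x, y) nrm N F_x` for `x ∈ [0, 1]`. By COF,
`S₀ = ∫_0^1 F_x(x + i y) dx`. By Tonelli and the orthogonality of the exponentials,
`∫_0^1 nrm N F_x dx = ∑_{n ∈ S} ‖b n‖^2 nrm N (f n) ≤ ∑ ‖b n‖^2 = S₀`. By the inequality of Cauchy and Schwarz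
`S₀^2 ≤ 200 y^(-3/2) ∫_0^1 U(x, y) dx * ∫_0^1 nrm N F_x dx ≤ 200 y^(-3/2) ∫_0^1 U(x, y) dx * S₀`. -/
def S_DUAL : Prop := ∀ (N : ℕ) (χ : DirichletCharacter ℂ N), 0 < N → 4 ∣ N → ∀ (S : Finset ℕ) (f : ℕ → ℍ → ℂ) (a : ℕ → ℕ → ℂ),
  (∀ n ∈ S, IsCusp N χ (f n) (a n) ∧ nrm N (f n) ≤ 1) → ∀ y : ℝ, 0 < y → y ≤ 1 →
    ∑ n ∈ S, ‖a n n‖ ^ 2 * Real.exp (-(4 * Real.pi * n * y)) ≤ 200 * y ^ (-(3 / 2) : ℝ) * ∫ x in (0 : ℝ)..1, U x y

/-- AVG (60 lines). `y = 1 / X` in DUAL, HTI. -/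
def S_AVG : Prop := ∃ C : ℝ, 0 < C ∧ ∀ (N : ℕ) (χ : DirichletCharacter ℂ N), 0 < N → 4 ∣ N → ∀ X : ℕ, 1 ≤ X →
  ∀ S ⊆ Finset.Icc 1 X, ∀ (f : ℕ → ℍ → ℂ) (a : ℕ → ℕ → ℂ), (∀ n ∈ S, IsCusp N χ (f n) (a n) ∧ nrm N (f n) ≤ 1) →
    ∑ n ∈ S, ‖a n n‖ ^ 2 ≤ C * (X : ℝ) ^ (3 / 2 : ℝ) * (1 + Real.log X)

/-- FNN (90 lines). `G f` is bounded (square of `bounded`), `Γ₀(N)` has finite index in `SL₂(ℤ)` and `fd` has finite volume
(it is contained in `|x| ≤ 1 / 2`, `y ≥ √3 / 2`, and `∫ dx dy / y^2` is finite; `UpperHalfPlane.volume_eq_lintegral`). -/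
def S_FNN : Prop := ∀ (N : ℕ) (χ : DirichletCharacter ℂ N) (f : ℍ → ℂ) (a : ℕ → ℂ), 0 < N → IsCusp N χ f a → nrm N f ≠ ⊤

/-- ZER (30 lines). PTW gives `G f = 0`, so `f = 0`, and COF. -/
def S_ZER : Prop := ∀ (N : ℕ) (χ : DirichletCharacter ℂ N) (f : ℍ → ℂ) (a : ℕ → ℂ), 0 < N → 4 ∣ N → IsCusp N χ f a →
  nrm N f = 0 → ∀ n, a n = 0

/-- the bound of the question with the exponent `1/4 + η` at the integer `n`, for all levels `N ≤ n^δ` (divisible by `4`), all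
characters and all cusp forms of weight `3/2`; `‖f‖` is the Petersson norm -/
def Good (η δ : ℝ) (n : ℕ) : Prop := ∀ N : ℕ, 0 < N → 4 ∣ N → (N : ℝ) ≤ (n : ℝ) ^ δ → ∀ (χ : DirichletCharacter ℂ N)
  (f : ℍ → ℂ) (a : ℕ → ℂ), IsCusp N χ f a → ‖a n‖ ≤ √(nrm N f).toReal * (n : ℝ) ^ (1 / 4 + η)

/-- CNB (200 lines). Dyadic blocks `X / 2 < n ≤ X`. For fixed `N ≤ X^δ` and `χ` let `B` be the set of the `n` in the block
with a form `f` in `S_{3/2}(N, χ)` with `‖a n‖ > ‖f‖ n^(1/4+η)`. By ZER and FNN, `0 < ‖f‖ < ∞`; divide `f` by `‖f‖` (`IsCusp` and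
`nrm` are homogeneous), so `f_n` has norm `1` and `‖a_{f_n}(n)‖^2 > n^(1/2+2η) ≥ (X/2)^(1/2+2η)`; AVG gives
`|B| ≤ C' X^(1-2η) (1 + log X)`. There are at most `X^(2δ)` pairs `(N, χ)` (`φ(N) ≤ N` characters modulo `N`,
`DirichletCharacter.card_eq_totient_of_hasEnoughRootsOfUnity`). Sum over the blocks. -/
def S_CNB : Prop := ∀ η δ : ℝ, 0 ≤ η → 0 ≤ δ → ∀ ε : ℝ, 0 < ε → ∃ C : ℝ, ∀ X : ℕ, 1 ≤ X →
  ({n : ℕ | 1 ≤ n ∧ n ≤ X ∧ ¬ Good η δ n}.ncard : ℝ) ≤ C * (X : ℝ) ^ (max (1 - 2 * (η - δ)) 0 + ε)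

end Pool.Agent.P8H49.WT
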