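import Pool.Agent.P8H49.WT.Sq
import Pool.Agent.N375.AV.D
import Pool.Agent.N375.AV.Ex

/-!
# Project WT: values of additive functions and their compositions
-/

set_option autoImplicit false

namespace Pool.Agent.P8H49.WT

open Pool.Agent.N375.AV (PD comp win_nat)
open Pool.Agent.N733.TG (Expanding)

theorem near_add {P : ℕ → Prop} {s : ℝ} (hs : 0 ≤ s) (hC : Few P s) (fs : List (ℕ → ℕ)) (hfs : ∀ f ∈ fs, PD f)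
    {F : ℕ → ℝ} {D κ : ℝ} (hF : Expanding F D) (hκ : 0 ≤ κ) (h : D * s + κ < 1) :
    ∃ c K : ℝ, 0 < c ∧ ∀ N : ℕ, 1 ≤ N →
      ({m : ℕ | 1 ≤ m ∧ m ≤ N ∧ ∃ n : ℕ, 1 ≤ n ∧ |(n : ℝ) - F (comp fs m)| ≤ (comp fs m : ℝ) ^ κ ∧ ¬ P n}.ncard : ℝ) ≤
        K * N * Real.exp (-(c * Real.log N ^ ((1 : ℝ) / (fs.length + 1)))) := by
  classical
  obtain ⟨c, K, hc, hK⟩ := win_nat {n : ℕ | 1 ≤ n ∧ ¬ P n} fs hfs hF hs hκ h (by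
    intro ε hε
    obtain ⟨C, hC'⟩ := hC ε hε
    refine ⟨C, fun X hX => le_trans (le_of_eq ?_) (hC' X hX)⟩
    rw [← Set.ncard_coe_finset]
    congr 2
    ext n
    simp only [Finset.coe_filter, Finset.mem_Ioc, Set.mem_ofPred_eq]
    constructor
    · rintro ⟨⟨h1, h2⟩, h3, h4⟩
      exact ⟨h3, h2, h4⟩
    · rintro ⟨h1, h2, h3⟩
      exact ⟨⟨by omega, h2⟩, h1, h3⟩)
  refine ⟨c, K, hc, fun N hN => le_trans ?_ (hK N hN)⟩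
  have hfin : {m : ℕ | 1 ≤ m ∧ m ≤ N ∧ ∃ n : ℕ, (n = 0 ∨ n ∈ {n : ℕ | 1 ≤ n ∧ ¬ P n}) ∧
      |(n : ℝ) - F (comp fs m)| ≤ (comp fs m : ℝ) ^ κ}.Finite := by
    apply (Set.finite_Icc 1 N).subset
    intro m hm
    exact ⟨hm.1, hm.2.1⟩
  have h2 : {m : ℕ | 1 ≤ m ∧ m ≤ N ∧ ∃ n : ℕ, 1 ≤ n ∧ |(n : ℝ) - F (comp fs m)| ≤ (comp fs m : ℝ) ^ κ ∧ ¬ P n} ⊆
      {m : ℕ | 1 ≤ m ∧ m ≤ N ∧ ∃ n : ℕ, (n = 0 ∨ n ∈ {n : ℕ | 1 ≤ n ∧ ¬ P n}) ∧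
      |(n : ℝ) - F (comp fs m)| ≤ (comp fs m : ℝ) ^ κ} := by
    rintro m ⟨h2, h3, n, h4, h5, h6⟩
    exact ⟨h2, h3, n, Or.inr ⟨h4, h6⟩, h5⟩
  exact_mod_cast Set.ncard_le_ncard h2 hfin

end Pool.Agent.P8H49.WT
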