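import Mathlib
import Pool.Agent.N733.TG.K
import Pool.Agent.N407.OU.U
import Pool.Agent.N671.DA.Win

/-!
# Project WT: properties of almost all integers, near functions of multiplicative functions, of the orbits of the function of Euler
and of the denominators of good approximations
-/

set_option autoImplicit false

open Filter

namespace Pool.Agent.P8H49.WT

open Pool.Agent.N733.TG (LM Expanding lm_totient lm_sigma expanding_pow)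

/-- up to `X` there are at most `X^(s + ε)` exceptions -/
def Few (P : ℕ → Prop) (s : ℝ) : Prop := ∀ ε : ℝ, 0 < ε → ∃ C : ℝ, ∀ X : ℕ, 1 ≤ X →
  ({n : ℕ | 1 ≤ n ∧ n ≤ X ∧ ¬ P n}.ncard : ℝ) ≤ C * (X : ℝ) ^ (s + ε)

/-- near values of multiplicative functions -/
theorem near_mult {P : ℕ → Prop} {s : ℝ} (hs : 0 ≤ s) (hC : Few P s) {f : ℕ → ℕ} (hf : LM f) {F : ℕ → ℝ} {D κ : ℝ}
    (hF : Expanding F D) (hκ : 0 ≤ κ) (h : D * s + κ < 1) (A : ℕ) :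
    ∃ N₀ : ℕ, ∀ N : ℕ, N₀ ≤ N →
      ({m : ℕ | 1 ≤ m ∧ m ≤ N ∧ ∃ n : ℕ, 1 ≤ n ∧ |(n : ℝ) - F (f m)| ≤ (f m : ℝ) ^ κ ∧ ¬ P n}.ncard : ℝ) ≤
        N / Real.log N ^ A := by
  obtain ⟨N₀, hN₀⟩ := Pool.Agent.N733.TG.keep_good_nat (fun _ => True) P hf hF (s := s)
    hs hκ h (fun ε hε => by
      obtain ⟨C, hC'⟩ := hC ε hε
      refine ⟨C, fun X hX => ?_⟩
      have := hC' X hX
      simpa using this) A
  refine ⟨N₀, fun N hN => le_trans (le_of_eq ?_) (hN₀ N hN)⟩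
  congr 2
  ext m
  simp only [Set.mem_ofPred_eq]
  constructor
  · rintro ⟨h1, h2, n, h3, h4, h5⟩
    exact ⟨h1, h2, fun h6 => h5 (h6 n h3 trivial h4)⟩
  · rintro ⟨h1, h2, h3⟩
    push Not at h3
    obtain ⟨n, h4, -, h5, h6⟩ := h3
    exact ⟨h1, h2, n, h4, h5, h6⟩

/-- real cut-offs -/
lemma count_real {P : ℕ → Prop} {s : ℝ} (hs0 : 0 ≤ s) (hC : Few P s) {ε : ℝ} (hε : 0 < ε) :
    ∃ C : ℝ, ∀ X : ℝ, 1 ≤ X → {t : ℕ | t ∈ {n : ℕ | 1 ≤ n ∧ ¬ P n} ∧ (t : ℝ) ≤ X}.Finite ∧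
      ({t : ℕ | t ∈ {n : ℕ | 1 ≤ n ∧ ¬ P n} ∧ (t : ℝ) ≤ X}.ncard : ℝ) ≤ C * X ^ (s + ε) := by
  obtain ⟨C, hC'⟩ := hC ε hε
  have hs : 0 ≤ s + ε := add_nonneg hs0 hε.le
  have hC0 : 0 ≤ C := by
    have h1 := hC' 1 le_rfl
    rw [Nat.cast_one, Real.one_rpow, mul_one] at h1
    exact le_trans (Nat.cast_nonneg _) h1
  refine ⟨C, fun X hX => ?_⟩
  have hX1 : 1 ≤ ⌊X⌋₊ := Nat.le_floor (by exact_mod_cast hX)
  have e1 : {t : ℕ | t ∈ {n : ℕ | 1 ≤ n ∧ ¬ P n} ∧ (t : ℝ) ≤ X} =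
      {n : ℕ | 1 ≤ n ∧ n ≤ ⌊X⌋₊ ∧ ¬ P n} := by
    ext t
    simp only [Set.mem_ofPred_eq]
    constructor
    · rintro ⟨⟨h1, h2⟩, h3⟩
      exact ⟨h1, Nat.le_floor h3, h2⟩
    · rintro ⟨h1, h2, h3⟩
      exact ⟨⟨h1, h3⟩, (Nat.le_floor_iff (by linarith)).1 h2⟩
  rw [e1]
  refine ⟨(Set.finite_Icc 1 ⌊X⌋₊).subset fun n hn => ⟨hn.1, hn.2.1⟩, (hC' _ hX1).trans ?_⟩
  refine mul_le_mul_of_nonneg_left ?_ hC0
  exact Real.rpow_le_rpow (Nat.cast_nonneg _) (Nat.floor_le (by linarith)) hs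

lemma exists_eps {D s κ : ℝ} (hD : 1 ≤ D) (h : D * s + κ < 1) : ∃ ε : ℝ, 0 < ε ∧ D * (s + ε) + κ < 1 := by
  refine ⟨(1 - D * s - κ) / (2 * D), by
    apply div_pos <;> linarith, ?_⟩
  have e : D * (s + (1 - D * s - κ) / (2 * D)) = D * s + (1 - D * s - κ) / 2 := by
    field_simp
  rw [e]
  linarith

/-- near almost all orbits of the function of Euler -/
theorem near_orb {P : ℕ → Prop} {s : ℝ} (hs : 0 ≤ s) (hC : Few P s) {f : ℕ → ℕ} (hf : LM f) {F : ℕ → ℝ} {D κ : ℝ}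
    (hF : Expanding F D) (hκ : 0 ≤ κ) (h : D * s + κ < 1) :
    ∃ K : ℕ → ℕ, Tendsto K atTop atTop ∧ ∀ ε : ℝ, 0 < ε → ∃ N₀ : ℕ, ∀ N : ℕ, N₀ ≤ N →
      ({m : ℕ | 1 ≤ m ∧ m ≤ N ∧ ∃ k ≤ K m, ∃ n : ℕ, 1 ≤ n ∧
        |(n : ℝ) - F (f (Nat.totient^[k] m))| ≤ (f (Nat.totient^[k] m) : ℝ) ^ κ ∧ ¬ P n}.ncard : ℝ) ≤ ε * N := by
  obtain ⟨ε, hε, h1⟩ := exists_eps hF.one_le h
  obtain ⟨C, hC'⟩ := count_real hs hC hε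
  obtain ⟨K, hK, hK2⟩ := Pool.Agent.N407.OU.orbit_unif (T := ℕ) hf hF
    (s := s + ε) (add_nonneg hs hε.le) hκ h1 C
  refine ⟨K, hK, fun e he => ?_⟩
  obtain ⟨N₀, hN₀⟩ := hK2 e he
  refine ⟨N₀, fun N hN => le_trans (le_of_eq ?_) (hN₀ {n : ℕ | 1 ≤ n ∧ ¬ P n} (fun t : ℕ => (t : ℝ)) hC' N hN)⟩
  congr 2
  ext m
  simp only [Set.mem_ofPred_eq]
  constructor
  · rintro ⟨h1, h2, k, h3, n, h4, h5, h6⟩
    exact ⟨h1, h2, k, h3, n, ⟨h4, h6⟩, h5⟩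
  · rintro ⟨h1, h2, k, h3, n, ⟨h4, h6⟩, h5⟩
    exact ⟨h1, h2, k, h3, n, h4, h5, h6⟩

/-- near functions of the denominators of good approximations -/
theorem near_approx {P : ℕ → Prop} {s : ℝ} (hs : 0 ≤ s) (hC : Few P s) {F : ℕ → ℝ} {D κ : ℝ}
    (hF : Pool.Agent.N671.DA.Expanding F D) (hκ : 0 ≤ κ) (hκ1 : κ ≤ 1) {M : ℕ} (β : Fin M → ℝ) {τ : ℝ} (hτ : 0 < τ) :
    ∃ E : Set (Fin M → ℝ), dimH E ≤ ENNReal.ofReal ((M + (D * s + κ)) / (1 + τ)) ∧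
      ∀ α, α ∉ E → ∀ c : ℝ, ∃ Q : ℕ, ∀ q : ℕ, Q ≤ q → Pool.Agent.N671.DA.Solves α β q (c * (q : ℝ) ^ (-τ)) →
        ∀ n : ℕ, 1 ≤ n → |(n : ℝ) - F q| ≤ (q : ℝ) ^ κ → P n := by
  obtain ⟨E, hE, hE2⟩ := Pool.Agent.N671.DA.approx_good_nat (fun _ => True) P hF
    (s := s) hs hκ hκ1 (fun ε hε => by
      obtain ⟨C, hC'⟩ := hC ε hε
      refine ⟨C, fun X hX => ?_⟩
      have := hC' X hX
      simpa using this) β hτ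
  refine ⟨E, hE, fun α hα c => ?_⟩
  obtain ⟨Q, hQ⟩ := hE2 α hα c
  exact ⟨Q, fun q hq h1 n hn h2 => hQ q hq h1 n hn trivial h2⟩

end Pool.Agent.P8H49.WT
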