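import Pool.Agent.P8H49.WT.Gen2
import Pool.Agent.P8H49.WT.App
import Pool.Agent.P8H1.WT.Dual
import Pool.Agent.P8H16.WT.Inv
import Pool.Agent.P8H16.WT.Hol
import Pool.Agent.P8H16.WT.Hti
import Pool.Agent.P8H26.WT.Unf
import Pool.Agent.P8H26.WT.Ptw
import Pool.Agent.P8H65.WT.Zer
import Pool.Agent.P8H65.WT.Fnn
import Pool.Agent.P8H76.WT.Cnt
import Pool.Agent.P8H76.WT.Htb
import Pool.Agent.P8H76.WT.Smv

/-!
# Project WT: assembly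
-/

set_option autoImplicit false

open UpperHalfPlane MeasureTheory CongruenceSubgroup
open scoped MatrixGroups ComplexConjugate

namespace Pool.Agent.P8H49.WT

open Pool.Agent.P8H65.WT (scale)

theorem ptw' : S_PTW := Pool.Agent.P8H26.WT.ptw Pool.Agent.P8H26.WT.unf Pool.Agent.P8H76.WT.cnt Pool.Agent.P8H76.WT.smv

theorem avg' : S_AVG := Pool.Agent.P8H65.WT.avg
  (Pool.Agent.P8H1.WT.dual Pool.Agent.P8H16.WT.inv Pool.Agent.P8H16.WT.hol Pool.Agent.P8H16.WT.cof ptw'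
    Pool.Agent.P8H76.WT.htb) Pool.Agent.P8H16.WT.hti

theorem fnn' : S_FNN := Pool.Agent.P8H65.WT.fnn

theorem zer' : S_ZER := Pool.Agent.P8H65.WT.zer Pool.Agent.P8H16.WT.inv Pool.Agent.P8H16.WT.hol Pool.Agent.P8H16.WT.cof ptw'

/-- every linear combination with coefficients of square sum at most `1` has Petersson norm at most `1`; this holds for
orthonormal systems -/
def Ortho (N : ℕ) (χ : DirichletCharacter ℂ N) {K : ℕ} (φ : Fin K → ℍ → ℂ) (b : Fin K → ℕ → ℂ) : Prop :=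
  (∀ k, IsCusp N χ (φ k) (b k)) ∧
    ∀ c : Fin K → ℂ, ∑ k, ‖c k‖ ^ 2 ≤ 1 → nrm N (fun z => ∑ k, c k * φ k z) ≤ 1

lemma cusp_sum {N : ℕ} {χ : DirichletCharacter ℂ N} {K : ℕ} {φ : Fin K → ℍ → ℂ} {b : Fin K → ℕ → ℂ}
    (h : ∀ k, IsCusp N χ (φ k) (b k)) (c : Fin K → ℂ) :
    IsCusp N χ (fun z => ∑ k, c k * φ k z) (fun n => ∑ k, c k * b k n) where
  expansion := fun z => by
    have h1 := hasSum_sum (s := Finset.univ) (fun k _ => (scale (h k) (c k)).expansion z)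
    simpa [Finset.sum_mul] using h1
  law := fun γ hγ z => by
    show ∑ k, c k * φ k (γ • z) = _
    rw [Finset.mul_sum]
    exact Finset.sum_congr rfl fun k _ => (scale (h k) (c k)).law γ hγ z
  bounded := by
    choose C hC using fun k => (scale (h k) (c k)).bounded
    refine ⟨∑ k, C k, fun z => ?_⟩
    have h1 : ‖∑ k, c k * φ k z‖ ≤ ∑ k, ‖c k * φ k z‖ := norm_sum_le _ _
    calc ‖∑ k, c k * φ k z‖ * z.im ^ (3 / 4 : ℝ) ≤ (∑ k, ‖c k * φ k z‖) * z.im ^ (3 / 4 : ℝ) :=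
          mul_le_mul_of_nonneg_right h1 (Real.rpow_nonneg z.im_pos.le _)
      _ = ∑ k, ‖c k * φ k z‖ * z.im ^ (3 / 4 : ℝ) := Finset.sum_mul _ _ _
      _ ≤ ∑ k, C k := Finset.sum_le_sum fun k _ => hC k z

/-- the dual form: a form of norm at most `1` with `|a(n)|^2 = ∑ |b_k(n)|^2` -/
lemma dual_form {N : ℕ} {χ : DirichletCharacter ℂ N} {K : ℕ} {φ : Fin K → ℍ → ℂ} {b : Fin K → ℕ → ℂ}
    (h : Ortho N χ φ b) (n : ℕ) :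
    ∃ (f : ℍ → ℂ) (a : ℕ → ℂ), IsCusp N χ f a ∧ nrm N f ≤ 1 ∧ ‖a n‖ ^ 2 = ∑ k, ‖b k n‖ ^ 2 := by
  obtain ⟨S, hS⟩ : ∃ S : ℝ, S = ∑ k, ‖b k n‖ ^ 2 := ⟨_, rfl⟩
  have S0 : 0 ≤ S := by rw [hS]; positivity
  refine ⟨_, _, cusp_sum h.1 (fun k => conj (b k n) / ((√S : ℝ) : ℂ)), h.2 _ ?_, ?_⟩
  · have h1 : ∀ k, ‖conj (b k n) / ((√S : ℝ) : ℂ)‖ ^ 2 = ‖b k n‖ ^ 2 / S := by
      intro k
      rw [norm_div, RCLike.norm_conj, Complex.norm_real, Real.norm_of_nonneg (Real.sqrt_nonneg _), div_pow,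
        Real.sq_sqrt S0]
    simp only [h1]
    rw [← Finset.sum_div, ← hS]
    exact div_self_le_one S
  · have h1 : ∑ k, conj (b k n) / ((√S : ℝ) : ℂ) * b k n = ((√S : ℝ) : ℂ) := by
      have h2 : ∀ k, conj (b k n) / ((√S : ℝ) : ℂ) * b k n = ((‖b k n‖ ^ 2 / √S : ℝ) : ℂ) := by
        intro k
        rw [div_mul_eq_mul_div, Complex.conj_mul']
        push_cast
        rfl
      rw [Finset.sum_congr rfl (fun k _ => h2 k), ← Complex.ofReal_sum, ← Finset.sum_div, ← hS, Real.div_sqrt]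
    show ‖∑ k, conj (b k n) / ((√S : ℝ) : ℂ) * b k n‖ ^ 2 = _
    rw [h1, Complex.norm_real, Real.norm_of_nonneg (Real.sqrt_nonneg _), Real.sq_sqrt S0, hS]

/-- the bound for orthonormal systems -/
theorem ortho_bound {Ψ : (N : ℕ) → Set (DirichletCharacter ℂ N)} {θ w : ℝ} {n : ℕ} (hB : Bound Ψ θ w n) {N : ℕ}
    (hN : 0 < N) (h4 : 4 ∣ N) {χ : DirichletCharacter ℂ N} (hχ : χ ∈ Ψ N) {K : ℕ} {φ : Fin K → ℍ → ℂ}
    {b : Fin K → ℕ → ℂ} (h : Ortho N χ φ b) :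
    ∑ k, ‖b k n‖ ^ 2 ≤ (w * (N : ℝ) ^ θ * (n : ℝ) ^ (1 / 4 : ℝ)) ^ 2 := by
  obtain ⟨f, a, hf, hf1, ha⟩ := dual_form h n
  rw [← ha]
  have h1 := hB N hN h4 χ hχ f a hf
  have h2 : √(nrm N f).toReal ≤ 1 := by
    rw [Real.sqrt_le_one]
    exact ENNReal.toReal_mono ENNReal.one_ne_top hf1
  obtain ⟨y, hy⟩ : ∃ y : ℝ, y = w * (N : ℝ) ^ θ * (n : ℝ) ^ (1 / 4 : ℝ) := ⟨_, rfl⟩
  rw [← hy] at h1 ⊢
  have h3 : 0 ≤ √(nrm N f).toReal := Real.sqrt_nonneg _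
  have h4 : 0 ≤ ‖a n‖ := norm_nonneg _
  rcases le_or_gt 0 y with h5 | h5
  · have h6 : ‖a n‖ ≤ y := by nlinarith
    nlinarith
  · have h6 : ‖a n‖ ≤ 0 := h1.trans (mul_nonpos_of_nonneg_of_nonpos h3 h5.le)
    have h7 : ‖a n‖ = 0 := le_antisymm h6 h4
    rw [h7]
    nlinarith [sq_nonneg y]

/-- the average bound for orthonormal systems -/
theorem ortho_avg : ∃ C : ℝ, 0 < C ∧ ∀ (N : ℕ) (χ : DirichletCharacter ℂ N), 0 < N → 4 ∣ N →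
    (∀ X : ℕ, 1 ≤ X → ∀ S ⊆ Finset.Icc 1 X, ∀ (f : ℕ → ℍ → ℂ) (a : ℕ → ℕ → ℂ),
      (∀ n ∈ S, IsCusp N χ (f n) (a n) ∧ nrm N (f n) ≤ 1) →
        ∑ n ∈ S, ‖a n n‖ ^ 2 ≤ C * (X : ℝ) ^ (3 / 2 : ℝ) * (1 + Real.log X)) ∧
    ∀ (K : ℕ) (φ : Fin K → ℍ → ℂ) (b : Fin K → ℕ → ℂ), Ortho N χ φ b → ∀ X : ℕ, 1 ≤ X →
      ∑ n ∈ Finset.Icc 1 X, ∑ k, ‖b k n‖ ^ 2 ≤ C * (X : ℝ) ^ (3 / 2 : ℝ) * (1 + Real.log X) := by
  obtain ⟨C, C0, hC⟩ := avg'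
  refine ⟨C, C0, fun N χ hN h4 => ⟨hC N χ hN h4, fun K φ b h X hX => ?_⟩⟩
  choose f a hf hf1 ha using fun n => dual_form h n
  have h1 := hC N χ hN h4 X hX (Finset.Icc 1 X) (Finset.Subset.refl _) f a (fun n _ => ⟨hf n, hf1 n⟩)
  simpa only [ha] using h1

/-- the count in the form needed for the applications -/
theorem few {κ θ : ℝ} (h : 1 + κ < 2 * θ) {Ψ : (N : ℕ) → Set (DirichletCharacter ℂ N)}
    (hΨ : ∀ N : ℕ, 0 < N → ((Ψ N).ncard : ℝ) ≤ (N : ℝ) ^ κ) {η : ℝ} (hη : 0 ≤ η) :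
    Few (fun n : ℕ => Bound Ψ θ ((n : ℝ) ^ η) n) (max (1 - 2 * η) 0) := by
  intro ε hε
  obtain ⟨C, C0, hC⟩ := count_t avg' fnn' zer' h
  obtain ⟨-, h2⟩ := hC Ψ hΨ
  refine ⟨C * (1 + 2 / ε) ^ 2, fun X hX => ?_⟩
  have X1 : (1 : ℝ) ≤ X := by exact_mod_cast hX
  have X0 : (0 : ℝ) < X := by linarith
  have hlog := Real.log_nonneg X1
  have e1 : {n : ℕ | 1 ≤ n ∧ n ≤ X ∧ ¬ Bound Ψ θ ((n : ℝ) ^ η) n} =
      {n : ℕ | 1 ≤ n ∧ n ≤ X ∧ Big Ψ θ ((n : ℝ) ^ η) n} := by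
    ext n
    simp only [Set.mem_ofPred_eq, not_bound]
  rw [e1]
  refine (h2 η hη X hX).trans ?_
  have h3 : 1 + Real.log X ≤ (1 + 2 / ε) * (X : ℝ) ^ (ε / 2) := by
    have h4 := Real.log_le_rpow_div X0.le (half_pos hε)
    have h5 : 1 ≤ (X : ℝ) ^ (ε / 2) := Real.one_le_rpow X1 (half_pos hε).le
    have h6 : (1 + 2 / ε) * (X : ℝ) ^ (ε / 2) = (X : ℝ) ^ (ε / 2) + (X : ℝ) ^ (ε / 2) / (ε / 2) := by
      field_simp
    rw [h6]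
    linarith
  have h4 : (1 + Real.log X) ^ 2 ≤ (1 + 2 / ε) ^ 2 * (X : ℝ) ^ ε := by
    calc (1 + Real.log X) ^ 2 ≤ ((1 + 2 / ε) * (X : ℝ) ^ (ε / 2)) ^ 2 := pow_le_pow_left₀ (by linarith) h3 2
      _ = (1 + 2 / ε) ^ 2 * (X : ℝ) ^ ε := by
          rw [mul_pow, ← Real.rpow_natCast ((X : ℝ) ^ (ε / 2)) 2, ← Real.rpow_mul X0.le]
          congr 2
          push_cast
          ring
  calc C * (X : ℝ) ^ (max (1 - 2 * η) 0) * (1 + Real.log X) ^ 2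
      ≤ C * (X : ℝ) ^ (max (1 - 2 * η) 0) * ((1 + 2 / ε) ^ 2 * (X : ℝ) ^ ε) :=
        mul_le_mul_of_nonneg_left h4 (by positivity)
    _ = _ := by
        rw [Real.rpow_add X0]
        ring

end Pool.Agent.P8H49.WT
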