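import Pool.Agent.Results.MP_d0fd9b_nt.SparseSetsOfPrimes
import Pool.Agent.P8H49.WT.Add

/-!
# Class groups of quadratic fields: the exceptional integers in the form needed for the applications
-/

set_option autoImplicit false

open NumberField

namespace Pool.Agent.P8H49.WT

open Pool.Agent.Results.MP_d0fd9b_nt.SparseSetsOfPrimes (HasExponent smallPrimes Reach Gen AllBut AllButPrimes)

lemma cls_mono {P : Set ℕ} {a e e' : ℝ} {d : ℕ} (hd : 1 ≤ d) (he : e ≤ e')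
    (h : Pool.Agent.Results.MP_d0fd9b_nt.SparseSetsOfPrimes.Good P a e d) :
    Pool.Agent.Results.MP_d0fd9b_nt.SparseSetsOfPrimes.Good P a e' d := by
  intro K _ _ hK hx
  obtain ⟨h1, h2, h3⟩ := h K hK hx
  have h4 : (d : ℝ) ^ e ≤ (d : ℝ) ^ e' := Real.rpow_le_rpow_of_exponent_le (by exact_mod_cast hd) he
  exact ⟨h1.trans (mul_le_mul_of_nonneg_right h4 (Nat.cast_nonneg _)), h2.trans h4, fun h => (h3 h).trans h4⟩

theorem few_class {P : Set ℕ} {s : ℝ} (hs0 : 0 < s) (hs1 : s ≤ 1) (hP : HasExponent P s) {a ε : ℝ}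
    (ha : 1 < a * s) (hε : 0 < ε) :
    Few (fun d => 2 ≤ d → Squarefree d →
      Pool.Agent.Results.MP_d0fd9b_nt.SparseSetsOfPrimes.Good P a ((1 - s) / 2 + 1 / (2 * a) + ε) d)
      (2 * (1 - s) + 2 / a) := by
  classical
  intro ε' hε'
  obtain ⟨C, hC, h, -⟩ := Pool.Agent.Results.MP_d0fd9b_nt.SparseSetsOfPrimes.result P s hs0 hs1 hP a (min ε ε') ha
    (lt_min hε hε')
  refine ⟨C, fun X hX => ?_⟩
  have hX1 : (1 : ℝ) ≤ X := by exact_mod_cast hX
  have hsub : {n : ℕ | 1 ≤ n ∧ n ≤ X ∧ ¬ (2 ≤ n → Squarefree n →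
      Pool.Agent.Results.MP_d0fd9b_nt.SparseSetsOfPrimes.Good P a ((1 - s) / 2 + 1 / (2 * a) + ε) n)} ⊆
      (((Finset.Icc 2 X).filter (fun d => Squarefree d ∧
        ¬ Pool.Agent.Results.MP_d0fd9b_nt.SparseSetsOfPrimes.Good P a ((1 - s) / 2 + 1 / (2 * a) + min ε ε') d) :
          Finset ℕ) : Set ℕ) := by
    rintro n ⟨h1, h2, h3⟩
    push Not at h3
    obtain ⟨h4, h5, h6⟩ := h3
    rw [Finset.mem_coe, Finset.mem_filter, Finset.mem_Icc]
    refine ⟨⟨h4, h2⟩, h5, fun h7 => h6 (cls_mono h1 ?_ h7)⟩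
    have := min_le_left ε ε'
    linarith
  have h1 := Set.ncard_le_ncard hsub (Finset.finite_toSet _)
  rw [Set.ncard_coe_finset] at h1
  have h2 := h X
  calc _ ≤ (((Finset.Icc 2 X).filter (fun d => Squarefree d ∧
        ¬ Pool.Agent.Results.MP_d0fd9b_nt.SparseSetsOfPrimes.Good P a ((1 - s) / 2 + 1 / (2 * a) + min ε ε') d)).card :
          ℝ) := by exact_mod_cast h1
    _ ≤ C * (X : ℝ) ^ (2 * (1 - s) + 2 / a + min ε ε') := by
        refine le_trans (le_of_eq ?_) h2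
        congr!
    _ ≤ C * (X : ℝ) ^ (2 * (1 - s) + 2 / a + ε') := by
        refine mul_le_mul_of_nonneg_left ?_ hC.le
        refine Real.rpow_le_rpow_of_exponent_le hX1 ?_
        have := min_le_right ε ε'
        linarith

end Pool.Agent.P8H49.WT
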