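import Mathlib

/-!
# A diagonal argument for countably many properties of the orbits
-/

set_option autoImplicit false

open Filter

namespace Pool.Agent.P8H49.WT

lemma diag {B : ℕ → ℕ → ℕ → Prop} (h : ∀ i, ∃ L : ℕ → ℕ, Tendsto L atTop atTop ∧ ∀ ε : ℝ, 0 < ε → ∃ N₀ : ℕ,
    ∀ N : ℕ, N₀ ≤ N → ({m : ℕ | 1 ≤ m ∧ m ≤ N ∧ ∃ j ≤ L m, B i j m}.ncard : ℝ) ≤ ε * N) :
    ∃ L : ℕ → ℕ, Tendsto L atTop atTop ∧ ∀ ε : ℝ, 0 < ε → ∃ N₀ : ℕ, ∀ N : ℕ, N₀ ≤ N →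
      ({m : ℕ | 1 ≤ m ∧ m ≤ N ∧ ∃ i ≤ L m, ∃ j ≤ L m, B i j m}.ncard : ℝ) ≤ ε * N := by
  classical
  choose K hK hK2 using h
  have hA : ∀ r : ℕ, ∃ A : ℕ, ∀ i ≤ r, (∀ m, A ≤ m → r ≤ K i m) ∧ ∀ N : ℕ, A ≤ N →
      ({m : ℕ | 1 ≤ m ∧ m ≤ N ∧ ∃ j ≤ K i m, B i j m}.ncard : ℝ) ≤ 1 / ((r : ℝ) + 1) ^ 2 * N := by
    intro r
    have h1 : ∀ i, ∃ A : ℕ, (∀ m, A ≤ m → r ≤ K i m) ∧ ∀ N : ℕ, A ≤ N →
        ({m : ℕ | 1 ≤ m ∧ m ≤ N ∧ ∃ j ≤ K i m, B i j m}.ncard : ℝ) ≤ 1 / ((r : ℝ) + 1) ^ 2 * N := by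
      intro i
      obtain ⟨A₁, hA₁⟩ := (tendsto_atTop.1 (hK i) r).exists_forall_of_atTop
      obtain ⟨A₂, hA₂⟩ := hK2 i (1 / ((r : ℝ) + 1) ^ 2) (by positivity)
      exact ⟨max A₁ A₂, fun m hm => hA₁ m ((le_max_left _ _).trans hm), fun N hN => hA₂ N ((le_max_right _ _).trans hN)⟩
    choose A hA using h1
    refine ⟨(Finset.range (r + 1)).sup A, fun i hi => ?_⟩
    have h2 : A i ≤ (Finset.range (r + 1)).sup A := Finset.le_sup (Finset.mem_range.2 (by omega))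
    exact ⟨fun m hm => (hA i).1 m (h2.trans hm), fun N hN => (hA i).2 N (h2.trans hN)⟩
  choose A hA using hA
  obtain ⟨L, hL⟩ : ∃ L : ℕ → ℕ, L = fun m => Nat.findGreatest (fun r => A r ≤ m) m := ⟨_, rfl⟩
  have hLmono : Monotone L := by
    intro m n hmn
    rw [hL]
    exact Nat.findGreatest_mono (fun j hj => le_trans hj hmn) hmn
  have hLge : ∀ r m, max (A r) r ≤ m → r ≤ L m := by
    intro r m hm
    rw [hL]
    exact Nat.le_findGreatest ((le_max_right _ _).trans hm) ((le_max_left _ _).trans hm)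
  have hLA : ∀ m, A 0 ≤ m → A (L m) ≤ m := by
    intro m hm
    rw [hL]
    exact Nat.findGreatest_spec (P := fun r => A r ≤ m) (Nat.zero_le m) hm
  refine ⟨L, tendsto_atTop_atTop.2 (fun r => ⟨max (A r) r, fun m hm => hLge r m hm⟩), fun ε hε => ?_⟩
  obtain ⟨r₀, hr₀⟩ := exists_nat_gt (2 / ε)
  obtain ⟨N₁, hN₁⟩ := exists_nat_gt (2 * (A 0 : ℝ) / ε)
  refine ⟨max (max (A r₀) r₀) (max N₁ (A 0)), fun N hN => ?_⟩
  have h1 : r₀ ≤ L N := hLge r₀ N ((le_max_left _ _).trans hN)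
  have h2 : N₁ ≤ N := ((le_max_left _ _).trans (le_max_right _ _)).trans hN
  have h3 : A 0 ≤ N := ((le_max_right _ _).trans (le_max_right _ _)).trans hN
  have h4 : A (L N) ≤ N := hLA N h3
  have hfin : ∀ i, {m : ℕ | 1 ≤ m ∧ m ≤ N ∧ ∃ j ≤ K i m, B i j m}.Finite := fun i =>
    (Set.finite_Icc 1 N).subset fun m hm => ⟨hm.1, hm.2.1⟩
  have hsub : {m : ℕ | 1 ≤ m ∧ m ≤ N ∧ ∃ i ≤ L m, ∃ j ≤ L m, B i j m} ⊆
      ((Finset.Ico 1 (A 0) ∪ (Finset.range (L N + 1)).biUnion (fun i => (hfin i).toFinset) : Finset ℕ) : Set ℕ) := by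
    rintro m ⟨k1, k2, i, hi, j, hj, hB⟩
    rw [Finset.mem_coe, Finset.mem_union]
    by_cases hm : m < A 0
    · left
      rw [Finset.mem_Ico]
      exact ⟨k1, hm⟩
    · right
      rw [not_lt] at hm
      have e1 : A (L m) ≤ m := hLA m hm
      have e2 : L m ≤ L N := hLmono k2
      rw [Finset.mem_biUnion]
      refine ⟨i, Finset.mem_range.2 (by omega), ?_⟩
      rw [Set.Finite.mem_toFinset]
      exact ⟨k1, k2, j, hj.trans ((hA (L m) i hi).1 m e1), hB⟩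
  have h5 : ({m : ℕ | 1 ≤ m ∧ m ≤ N ∧ ∃ i ≤ L m, ∃ j ≤ L m, B i j m}.ncard : ℝ) ≤
      (A 0 : ℝ) + ∑ i ∈ Finset.range (L N + 1), ({m : ℕ | 1 ≤ m ∧ m ≤ N ∧ ∃ j ≤ K i m, B i j m}.ncard : ℝ) := by
    have e1 := Set.ncard_le_ncard hsub (Finset.finite_toSet _)
    rw [Set.ncard_coe_finset] at e1
    have e2 := e1.trans (Finset.card_union_le _ _)
    have e3 : (Finset.Ico 1 (A 0)).card ≤ A 0 := by
      rw [Nat.card_Ico]
      omega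
    have e4 := e2.trans (Nat.add_le_add e3 Finset.card_biUnion_le)
    have e5 : ∑ i ∈ Finset.range (L N + 1), (hfin i).toFinset.card =
        ∑ i ∈ Finset.range (L N + 1), {m : ℕ | 1 ≤ m ∧ m ≤ N ∧ ∃ j ≤ K i m, B i j m}.ncard := by
      refine Finset.sum_congr rfl fun i _ => ?_
      rw [Set.ncard_eq_toFinset_card _ (hfin i)]
    rw [e5] at e4
    exact_mod_cast e4
  have h6 : ∑ i ∈ Finset.range (L N + 1), ({m : ℕ | 1 ≤ m ∧ m ≤ N ∧ ∃ j ≤ K i m, B i j m}.ncard : ℝ) ≤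
      ∑ _i ∈ Finset.range (L N + 1), 1 / (((L N : ℕ) : ℝ) + 1) ^ 2 * N := by
    refine Finset.sum_le_sum fun i hi => ?_
    exact (hA (L N) i (by have := Finset.mem_range.1 hi; omega)).2 N h4
  have h7 : ∑ _i ∈ Finset.range (L N + 1), 1 / (((L N : ℕ) : ℝ) + 1) ^ 2 * (N : ℝ) = N / ((L N : ℝ) + 1) := by
    rw [Finset.sum_const, Finset.card_range, nsmul_eq_mul]
    push_cast
    field_simp
  have hN0 : (0 : ℝ) ≤ N := Nat.cast_nonneg N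
  have h8 : (N : ℝ) / ((L N : ℝ) + 1) ≤ ε / 2 * N := by
    rw [div_le_iff₀ (by positivity)]
    have e1 : (r₀ : ℝ) ≤ L N := by exact_mod_cast h1
    have e2 : 2 / ε < (L N : ℝ) + 1 := by linarith
    rw [div_lt_iff₀ hε] at e2
    nlinarith
  have h9 : (A 0 : ℝ) ≤ ε / 2 * N := by
    have e1 : (N₁ : ℝ) ≤ N := by exact_mod_cast h2
    have e2 : 2 * (A 0 : ℝ) / ε < N := lt_of_lt_of_le hN₁ e1
    rw [div_lt_iff₀ hε] at e2
    linarith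
  linarith [h5, h6, h7, h8, h9]

end Pool.Agent.P8H49.WT
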