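import Pool.Agent.P8H65.WT.Cnb

/-!
# Project WT: the exceptional integers, without a restriction on the level
-/

set_option autoImplicit false

open UpperHalfPlane MeasureTheory CongruenceSubgroup
open scoped MatrixGroups

namespace Pool.Agent.P8H49.WT

open Pool.Agent.P8H65.WT (scale nrm_scale AvgC card_char)

/-- There are a level `N` divisible by `4`, a character `χ` in `Ψ N` and a cusp form `f` in `S_{3/2}(N, χ)` with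
`|a_f(n)| > ‖f‖ t N^θ n^(1/4)`. -/
def Big (Ψ : (N : ℕ) → Set (DirichletCharacter ℂ N)) (θ t : ℝ) (n : ℕ) : Prop :=
  ∃ N : ℕ, 0 < N ∧ 4 ∣ N ∧ ∃ χ ∈ Ψ N, ∃ (f : ℍ → ℂ) (a : ℕ → ℂ), IsCusp N χ f a ∧
    √(nrm N f).toReal * (t * (N : ℝ) ^ θ * (n : ℝ) ^ (1 / 4 : ℝ)) < ‖a n‖

/-- normalisation -/
lemma one_form_w (hF : S_FNN) (hZ : S_ZER) {N : ℕ} {χ : DirichletCharacter ℂ N} {f : ℍ → ℂ}
    {a : ℕ → ℂ} {n : ℕ} {w : ℝ} (hw : 0 ≤ w) (hN : 0 < N) (h4 : 4 ∣ N) (hf : IsCusp N χ f a)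
    (hb : √(nrm N f).toReal * w < ‖a n‖) :
    ∃ (f' : ℍ → ℂ) (a' : ℕ → ℂ), IsCusp N χ f' a' ∧ nrm N f' ≤ 1 ∧ w ≤ ‖a' n‖ := by
  have h1 := hF N χ f a hN hf
  have h2 : nrm N f ≠ 0 := by
    intro h
    have h3 := hZ N χ f a hN h4 hf h n
    rw [h3, norm_zero] at hb
    have : 0 ≤ √(nrm N f).toReal * w := mul_nonneg (Real.sqrt_nonneg _) hw
    linarith
  obtain ⟨t, ht⟩ : ∃ t : ℝ, t = (nrm N f).toReal := ⟨_, rfl⟩
  have t0 : 0 < t := by rw [ht]; exact ENNReal.toReal_pos h2 h1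
  have s0 : 0 < √t := Real.sqrt_pos.2 t0
  have et : nrm N f = ENNReal.ofReal t := by rw [ht, ENNReal.ofReal_toReal h1]
  have ec : ‖(((√t)⁻¹ : ℝ) : ℂ)‖ = (√t)⁻¹ := by
    rw [Complex.norm_real, Real.norm_of_nonneg (by positivity)]
  refine ⟨_, _, scale hf (((√t)⁻¹ : ℝ) : ℂ), ?_, ?_⟩
  · rw [nrm_scale, ec, et, ← ENNReal.ofReal_mul (by positivity), inv_pow, Real.sq_sqrt t0.le,
      inv_mul_cancel₀ t0.ne', ENNReal.ofReal_one]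
  · rw [← ht] at hb
    show _ ≤ ‖(((√t)⁻¹ : ℝ) : ℂ) * a n‖
    rw [norm_mul, ec, inv_mul_eq_div, le_div_iff₀ s0, mul_comm]
    exact hb.le

lemma block_w {C : ℝ} (hC : AvgC C) (hF : S_FNN) (hZ : S_ZER) {θ t : ℝ} (ht : 0 < t) {N : ℕ} (hN : 0 < N)
    (h4 : 4 ∣ N) (χ : DirichletCharacter ℂ N) (j : ℕ) (S : Finset ℕ)
    (hS : ∀ n ∈ S, 2 ^ j ≤ n ∧ n < 2 ^ (j + 1) ∧ ∃ (f : ℍ → ℂ) (a : ℕ → ℂ), IsCusp N χ f a ∧
      √(nrm N f).toReal * (t * (N : ℝ) ^ θ * (n : ℝ) ^ (1 / 4 : ℝ)) < ‖a n‖) :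
    (S.card : ℝ) * (t ^ 2 * (N : ℝ) ^ (2 * θ) * ((2 : ℝ) ^ j) ^ (1 / 2 : ℝ)) ≤
      C * ((2 : ℝ) ^ (j + 1)) ^ (3 / 2 : ℝ) * (1 + Real.log ((2 : ℝ) ^ (j + 1))) := by
  have N0 : (0 : ℝ) < N := by exact_mod_cast hN
  have h1 : ∀ n ∈ S, ∃ (f' : ℍ → ℂ) (a' : ℕ → ℂ), IsCusp N χ f' a' ∧ nrm N f' ≤ 1 ∧
      t * (N : ℝ) ^ θ * (n : ℝ) ^ (1 / 4 : ℝ) ≤ ‖a' n‖ := by
    intro n hn
    obtain ⟨f, a, hf, hb⟩ := (hS n hn).2.2
    exact one_form_w hF hZ (by positivity) hN h4 hf hb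
  choose! f a hfa using h1
  have hsub : S ⊆ Finset.Icc 1 (2 ^ (j + 1)) := by
    intro n hn
    rw [Finset.mem_Icc]
    have h := hS n hn
    have : 1 ≤ 2 ^ j := Nat.one_le_two_pow
    exact ⟨this.trans h.1, h.2.1.le⟩
  have h2 := hC N χ hN h4 (2 ^ (j + 1)) Nat.one_le_two_pow S hsub f a
    (fun n hn => ⟨(hfa n hn).1, (hfa n hn).2.1⟩)
  push_cast at h2
  refine le_trans ?_ h2
  rw [← nsmul_eq_mul, ← Finset.sum_const]
  refine Finset.sum_le_sum (fun n hn => ?_)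
  have h3 := (hfa n hn).2.2
  have n1 : (2 : ℝ) ^ j ≤ n := by exact_mod_cast (hS n hn).1
  have n0 : (0 : ℝ) ≤ n := Nat.cast_nonneg n
  have e1 : (N : ℝ) ^ (2 * θ) = ((N : ℝ) ^ θ) ^ 2 := by
    rw [← Real.rpow_natCast ((N : ℝ) ^ θ) 2, ← Real.rpow_mul N0.le]
    congr 1
    push_cast
    ring
  have e2 : (n : ℝ) ^ (1 / 2 : ℝ) = ((n : ℝ) ^ (1 / 4 : ℝ)) ^ 2 := by
    rw [← Real.rpow_natCast ((n : ℝ) ^ (1 / 4 : ℝ)) 2, ← Real.rpow_mul n0]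
    congr 1
    norm_num
  calc t ^ 2 * (N : ℝ) ^ (2 * θ) * ((2 : ℝ) ^ j) ^ (1 / 2 : ℝ)
      ≤ t ^ 2 * (N : ℝ) ^ (2 * θ) * (n : ℝ) ^ (1 / 2 : ℝ) :=
        mul_le_mul_of_nonneg_left (Real.rpow_le_rpow (by positivity) n1 (by positivity)) (by positivity)
    _ = (t * (N : ℝ) ^ θ * (n : ℝ) ^ (1 / 4 : ℝ)) ^ 2 := by
        rw [e1, e2]
        ring
    _ ≤ ‖a n n‖ ^ 2 := pow_le_pow_left₀ (by positivity) h3 2

/-- the sum of the weights -/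
def Wt (Ψ : (N : ℕ) → Set (DirichletCharacter ℂ N)) (θ Z : ℝ) : Prop :=
  ∀ M : ℕ, ∑ N ∈ Finset.range M, ((Ψ (N + 1)).ncard : ℝ) * ((N + 1 : ℕ) : ℝ) ^ (-(2 * θ)) ≤ Z

open scoped Classical in
/-- **a dyadic block** -/
lemma block_big {C : ℝ} (hC0 : 0 < C) (hC : AvgC C) (hF : S_FNN) (hZ : S_ZER)
    {Ψ : (N : ℕ) → Set (DirichletCharacter ℂ N)} {θ t Z : ℝ} (ht : 0 < t) (hΨ : Wt Ψ θ Z) (j : ℕ) :
    (((Finset.Ico (2 ^ j) (2 ^ (j + 1))).filter (fun n => Big Ψ θ t n)).card : ℝ) ≤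
      4 * Z * C * (2 : ℝ) ^ j * (1 + Real.log ((2 : ℝ) ^ (j + 1))) / t ^ 2 := by
  obtain ⟨x, hx⟩ : ∃ x : ℝ, x = (2 : ℝ) ^ (j + 1) := ⟨_, rfl⟩
  have x1 : 1 ≤ x := by rw [hx]; exact one_le_pow₀ (by norm_num)
  have x0 : 0 < x := by linarith
  obtain ⟨K, hK⟩ : ∃ K : ℝ, K = t ^ 2 * ((2 : ℝ) ^ j) ^ (1 / 2 : ℝ) := ⟨_, rfl⟩
  have K0 : 0 < K := by rw [hK]; positivity
  obtain ⟨R, hR⟩ : ∃ R : ℝ, R = C * x ^ (3 / 2 : ℝ) * (1 + Real.log x) := ⟨_, rfl⟩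
  have hlog := Real.log_nonneg x1
  have R0 : 0 ≤ R := by
    rw [hR]
    positivity
  obtain ⟨T, hT⟩ : ∃ T : Finset ℕ, T = (Finset.Ico (2 ^ j) (2 ^ (j + 1))).filter (fun n => Big Ψ θ t n) := ⟨_, rfl⟩
  rw [← hT]
  have : ∀ N : ℕ, Fintype (DirichletCharacter ℂ (N + 1)) := fun N => Fintype.ofFinite _
  obtain ⟨B, hB⟩ : ∃ B : (N : ℕ) → DirichletCharacter ℂ (N + 1) → Finset ℕ, B = fun N χ =>
    (Finset.Ico (2 ^ j) (2 ^ (j + 1))).filter (fun n : ℕ => 4 ∣ N + 1 ∧ ∃ (f : ℍ → ℂ) (a : ℕ → ℂ), IsCusp (N + 1) χ f a ∧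
      √(nrm (N + 1) f).toReal * (t * ((N + 1 : ℕ) : ℝ) ^ θ * (n : ℝ) ^ (1 / 4 : ℝ)) < ‖a n‖) := ⟨_, rfl⟩
  have hbig : ∀ n ∈ T, ∃ N : ℕ, ∃ χ ∈ Ψ (N + 1), n ∈ B N χ := by
    intro n hn
    rw [hT, Finset.mem_filter] at hn
    obtain ⟨hn1, N, hN, h4, χ, hχ, f, a, hf, hb⟩ := hn
    obtain ⟨N', rfl⟩ : ∃ N', N = N' + 1 := ⟨N - 1, by omega⟩
    refine ⟨N', χ, hχ, ?_⟩
    rw [hB]
    show n ∈ (Finset.Ico (2 ^ j) (2 ^ (j + 1))).filter (fun n : ℕ => 4 ∣ N' + 1 ∧ ∃ (f : ℍ → ℂ) (a : ℕ → ℂ),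
      IsCusp (N' + 1) χ f a ∧
      √(nrm (N' + 1) f).toReal * (t * ((N' + 1 : ℕ) : ℝ) ^ θ * (n : ℝ) ^ (1 / 4 : ℝ)) < ‖a n‖)
    rw [Finset.mem_filter]
    exact ⟨hn1, h4, f, a, hf, hb⟩
  choose! g hg using hbig
  obtain ⟨M, hM⟩ : ∃ M : ℕ, ∀ n ∈ T, g n < M := by
    refine ⟨(T.sup g) + 1, fun n hn => Nat.lt_succ_of_le (Finset.le_sup hn)⟩
  have hsub : T ⊆ (Finset.range M).biUnion (fun N =>
      (Finset.univ.filter (fun χ : DirichletCharacter ℂ (N + 1) => χ ∈ Ψ (N + 1))).biUnion (fun χ => B N χ)) := by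
    intro n hn
    obtain ⟨χ, hχ, hn2⟩ := hg n hn
    rw [Finset.mem_biUnion]
    refine ⟨g n, Finset.mem_range.2 (hM n hn), ?_⟩
    rw [Finset.mem_biUnion]
    exact ⟨χ, by simp [hχ], hn2⟩
  have hone : ∀ (N : ℕ) (χ : DirichletCharacter ℂ (N + 1)), ((B N χ).card : ℝ) * K ≤
      R * ((N + 1 : ℕ) : ℝ) ^ (-(2 * θ)) := by
    intro N χ
    have N0 : (0 : ℝ) < ((N + 1 : ℕ) : ℝ) := by positivity
    by_cases h4 : 4 ∣ N + 1
    · have h := block_w hC hF hZ ht (Nat.succ_pos N) h4 (θ := θ) χ j (B N χ) (fun n hn => by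
        rw [hB] at hn
        have hn' : n ∈ (Finset.Ico (2 ^ j) (2 ^ (j + 1))).filter
          (fun n : ℕ => 4 ∣ N + 1 ∧ ∃ (f : ℍ → ℂ) (a : ℕ → ℂ), IsCusp (N + 1) χ f a ∧
            √(nrm (N + 1) f).toReal * (t * ((N + 1 : ℕ) : ℝ) ^ θ * (n : ℝ) ^ (1 / 4 : ℝ)) < ‖a n‖) := hn
        rw [Finset.mem_filter, Finset.mem_Ico] at hn'
        exact ⟨hn'.1.1, hn'.1.2, hn'.2.2⟩)
      rw [← hx, ← hR] at h
      rw [Real.rpow_neg N0.le, ← div_eq_mul_inv, le_div_iff₀ (Real.rpow_pos_of_pos N0 _)]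
      calc ((B N χ).card : ℝ) * K * ((N + 1 : ℕ) : ℝ) ^ (2 * θ)
          = ((B N χ).card : ℝ) * (t ^ 2 * ((N + 1 : ℕ) : ℝ) ^ (2 * θ) * ((2 : ℝ) ^ j) ^ (1 / 2 : ℝ)) := by
            rw [hK]
            ring
        _ ≤ R := h
    · have : B N χ = ∅ := by
        rw [hB]
        exact Finset.filter_false_of_mem (fun n _ h => h4 h.1)
      rw [this, Finset.card_empty, Nat.cast_zero, zero_mul]
      positivity
  have hcard : (T.card : ℝ) ≤ ∑ N ∈ Finset.range M,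
      ∑ χ ∈ Finset.univ.filter (fun χ : DirichletCharacter ℂ (N + 1) => χ ∈ Ψ (N + 1)), ((B N χ).card : ℝ) := by
    have h1 := (Finset.card_le_card hsub).trans Finset.card_biUnion_le
    have h2 : T.card ≤ ∑ N ∈ Finset.range M,
        ∑ χ ∈ Finset.univ.filter (fun χ : DirichletCharacter ℂ (N + 1) => χ ∈ Ψ (N + 1)), (B N χ).card :=
      h1.trans (Finset.sum_le_sum (fun N _ => Finset.card_biUnion_le))
    exact_mod_cast h2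
  have hmain : (T.card : ℝ) * K ≤ R * Z := by
    calc (T.card : ℝ) * K
        ≤ (∑ N ∈ Finset.range M,
      ∑ χ ∈ Finset.univ.filter (fun χ : DirichletCharacter ℂ (N + 1) => χ ∈ Ψ (N + 1)), ((B N χ).card : ℝ)) * K :=
          mul_le_mul_of_nonneg_right hcard K0.le
      _ = ∑ N ∈ Finset.range M,
      ∑ χ ∈ Finset.univ.filter (fun χ : DirichletCharacter ℂ (N + 1) => χ ∈ Ψ (N + 1)), ((B N χ).card : ℝ) * K := by
          rw [Finset.sum_mul]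
          refine Finset.sum_congr rfl (fun N _ => ?_)
          rw [Finset.sum_mul]
      _ ≤ ∑ N ∈ Finset.range M, R * (((Ψ (N + 1)).ncard : ℝ) * ((N + 1 : ℕ) : ℝ) ^ (-(2 * θ))) := by
          refine Finset.sum_le_sum (fun N hN => ?_)
          refine (Finset.sum_le_sum (fun χ _ => hone N χ)).trans (le_of_eq ?_)
          have h5 : (Finset.univ.filter (fun χ : DirichletCharacter ℂ (N + 1) => χ ∈ Ψ (N + 1))).card =
              (Ψ (N + 1)).ncard := by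
            rw [← Set.ncard_coe_finset]
            congr 1
            ext χ
            simp
          rw [Finset.sum_const, nsmul_eq_mul, h5]
          ring
      _ = R * ∑ N ∈ Finset.range M, (((Ψ (N + 1)).ncard : ℝ) * ((N + 1 : ℕ) : ℝ) ^ (-(2 * θ))) := by
          rw [Finset.mul_sum]
      _ ≤ R * Z := mul_le_mul_of_nonneg_left (hΨ M) R0
  obtain ⟨p, hp⟩ : ∃ p : ℝ, p = (2 : ℝ) ^ j := ⟨_, rfl⟩
  have p0 : 0 < p := by rw [hp]; positivity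
  have ex : x = 2 * p := by rw [hx, hp, pow_succ]; ring
  have Z0 : 0 ≤ Z := by
    have := hΨ 0
    simpa using this
  have h32 : (2 : ℝ) ^ (3 / 2 : ℝ) ≤ 4 := by
    calc (2 : ℝ) ^ (3 / 2 : ℝ) ≤ (2 : ℝ) ^ (2 : ℝ) :=
          Real.rpow_le_rpow_of_exponent_le (by norm_num) (by norm_num)
      _ = 4 := by norm_num
  have hx32 : x ^ (3 / 2 : ℝ) ≤ 4 * (p * p ^ (1 / 2 : ℝ)) := by
    rw [ex, Real.mul_rpow (by norm_num) p0.le]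
    have h6 : p ^ (3 / 2 : ℝ) = p * p ^ (1 / 2 : ℝ) := by
      nth_rewrite 2 [← Real.rpow_one p]
      rw [← Real.rpow_add p0]
      norm_num
    rw [h6]
    exact mul_le_mul_of_nonneg_right h32 (by positivity)
  rw [le_div_iff₀ (by positivity)]
  have h7 : ((T.card : ℝ) * t ^ 2) * p ^ (1 / 2 : ℝ) ≤
      (4 * Z * C * p * (1 + Real.log x)) * p ^ (1 / 2 : ℝ) := by
    calc ((T.card : ℝ) * t ^ 2) * p ^ (1 / 2 : ℝ) = (T.card : ℝ) * K := by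
          rw [hK, hp]
          ring
      _ ≤ R * Z := hmain
      _ ≤ (C * (4 * (p * p ^ (1 / 2 : ℝ))) * (1 + Real.log x)) * Z := by
          rw [hR]
          refine mul_le_mul_of_nonneg_right ?_ Z0
          refine mul_le_mul_of_nonneg_right ?_ (by linarith)
          exact mul_le_mul_of_nonneg_left hx32 hC0.le
      _ = _ := by ring
  have h8 := le_of_mul_le_mul_right h7 (Real.rpow_pos_of_pos p0 _)
  rw [hp, hx] at h8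
  exact h8

end Pool.Agent.P8H49.WT
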