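import Pool.Agent.P8H49.WT.Gen

/-!
# Project WT: the exceptional integers, sums over the dyadic blocks
-/

set_option autoImplicit false

open UpperHalfPlane MeasureTheory CongruenceSubgroup
open scoped MatrixGroups

namespace Pool.Agent.P8H49.WT

open Pool.Agent.P8H65.WT (scale nrm_scale AvgC card_char)

/-- The bound `|a_f(n)| ≤ ‖f‖ w N^θ n^(1/4)` for the `n`-th coefficient holds for all levels `N` divisible by `4`, all
characters `χ` in `Ψ N` and all cusp forms `f` in `S_{3/2}(N, χ)`, `‖f‖` the Petersson norm. -/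
def Bound (Ψ : (N : ℕ) → Set (DirichletCharacter ℂ N)) (θ w : ℝ) (n : ℕ) : Prop :=
  ∀ N : ℕ, 0 < N → 4 ∣ N → ∀ χ ∈ Ψ N, ∀ (f : ℍ → ℂ) (a : ℕ → ℂ), IsCusp N χ f a →
    ‖a n‖ ≤ √(nrm N f).toReal * (w * (N : ℝ) ^ θ * (n : ℝ) ^ (1 / 4 : ℝ))

lemma not_bound {Ψ : (N : ℕ) → Set (DirichletCharacter ℂ N)} {θ w : ℝ} {n : ℕ} :
    ¬ Bound Ψ θ w n ↔ Big Ψ θ w n := by
  unfold Bound Big
  constructor
  · intro h
    push Not at h
    obtain ⟨N, hN, h4, χ, hχ, f, a, hf, hb⟩ := h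
    exact ⟨N, hN, h4, χ, hχ, f, a, hf, hb⟩
  · rintro ⟨N, hN, h4, χ, hχ, f, a, hf, hb⟩ h
    exact absurd (h N hN h4 χ hχ f a hf) (not_le.2 hb)

lemma Big.anti {Ψ : (N : ℕ) → Set (DirichletCharacter ℂ N)} {θ s t : ℝ} {n : ℕ} (h : Big Ψ θ t n)
    (hst : s ≤ t) : Big Ψ θ s n := by
  obtain ⟨N, hN, h4, χ, hχ, f, a, hf, hb⟩ := h
  refine ⟨N, hN, h4, χ, hχ, f, a, hf, lt_of_le_of_lt ?_ hb⟩
  refine mul_le_mul_of_nonneg_left ?_ (Real.sqrt_nonneg _)
  refine mul_le_mul_of_nonneg_right ?_ (by positivity)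
  exact mul_le_mul_of_nonneg_right hst (by positivity)

/-- the sum of the weights is bounded -/
lemma wt_of_pow {κ θ : ℝ} (h : 1 + κ < 2 * θ) : ∃ Z : ℝ, 0 < Z ∧
    ∀ Ψ : (N : ℕ) → Set (DirichletCharacter ℂ N), (∀ N : ℕ, 0 < N → ((Ψ N).ncard : ℝ) ≤ (N : ℝ) ^ κ) →
      Wt Ψ θ Z := by
  have hs : Summable (fun N : ℕ => ((N : ℝ) ^ (κ - 2 * θ))) := Real.summable_nat_rpow.2 (by linarith)
  have hs1 : Summable (fun N : ℕ => (((N + 1 : ℕ) : ℝ) ^ (κ - 2 * θ))) := (summable_nat_add_iff 1).2 hs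
  refine ⟨1 + ∑' N : ℕ, (((N + 1 : ℕ) : ℝ) ^ (κ - 2 * θ)), ?_, fun Ψ hΨ M => ?_⟩
  · have : 0 ≤ ∑' N : ℕ, (((N + 1 : ℕ) : ℝ) ^ (κ - 2 * θ)) := tsum_nonneg fun N => by positivity
    linarith
  · have h1 : ∑ N ∈ Finset.range M, ((Ψ (N + 1)).ncard : ℝ) * ((N + 1 : ℕ) : ℝ) ^ (-(2 * θ)) ≤
        ∑ N ∈ Finset.range M, (((N + 1 : ℕ) : ℝ) ^ (κ - 2 * θ)) := by
      refine Finset.sum_le_sum fun N _ => ?_
      have N0 : (0 : ℝ) < ((N + 1 : ℕ) : ℝ) := by positivity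
      rw [sub_eq_add_neg, Real.rpow_add N0]
      exact mul_le_mul_of_nonneg_right (hΨ (N + 1) (Nat.succ_pos N)) (by positivity)
    have h2 := hs1.sum_le_tsum (Finset.range M) (fun N _ => by positivity)
    linarith

open scoped Classical in
/-- the dyadic blocks -/
lemma count_blocks (P : ℕ → Prop) (X : ℕ) :
    ({n : ℕ | 1 ≤ n ∧ n ≤ X ∧ P n}.ncard : ℝ) ≤
      ∑ j ∈ Finset.range (Nat.log 2 X + 1), (((Finset.Ico (2 ^ j) (2 ^ (j + 1))).filter (fun n => P n)).card : ℝ) := by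
  have hsub : {n : ℕ | 1 ≤ n ∧ n ≤ X ∧ P n} ⊆
      (((Finset.range (Nat.log 2 X + 1)).biUnion (fun j =>
        (Finset.Ico (2 ^ j) (2 ^ (j + 1))).filter (fun n => P n)) : Finset ℕ) : Set ℕ) := by
    rintro n ⟨h1, h2, h3⟩
    rw [Finset.mem_coe, Finset.mem_biUnion]
    refine ⟨Nat.log 2 n, ?_, ?_⟩
    · rw [Finset.mem_range]
      exact Nat.lt_succ_of_le (Nat.log_mono_right h2)
    · rw [Finset.mem_filter, Finset.mem_Ico]
      exact ⟨⟨Nat.pow_log_le_self 2 (by omega), Nat.lt_pow_succ_log_self (by norm_num) n⟩, h3⟩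
  have h2 := Set.ncard_le_ncard hsub (Finset.finite_toSet _)
  rw [Set.ncard_coe_finset] at h2
  exact_mod_cast h2.trans Finset.card_biUnion_le

lemma log_block {X : ℕ} (hX : 1 ≤ X) {j : ℕ} (hj : j ∈ Finset.range (Nat.log 2 X + 1)) :
    (2 : ℝ) ^ j ≤ X ∧ 1 + Real.log ((2 : ℝ) ^ (j + 1)) ≤ 2 * (1 + Real.log X) := by
  have X1 : (1 : ℝ) ≤ X := by exact_mod_cast hX
  have hlog := Real.log_nonneg X1
  have h1 : (2 : ℝ) ^ j ≤ X := by
    have h2 : j ≤ Nat.log 2 X := by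
      have := Finset.mem_range.1 hj
      omega
    have h3 : 2 ^ j ≤ X := (Nat.pow_le_pow_right (by norm_num) h2).trans (Nat.pow_log_le_self 2 (by omega))
    exact_mod_cast h3
  refine ⟨h1, ?_⟩
  have h4 : Real.log ((2 : ℝ) ^ (j + 1)) = Real.log ((2 : ℝ) ^ j) + Real.log 2 := by
    rw [pow_succ, Real.log_mul (by positivity) (by norm_num)]
  have h5 : Real.log ((2 : ℝ) ^ j) ≤ Real.log X := Real.log_le_log (by positivity) h1
  have h6 : Real.log 2 ≤ 1 := by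
    have := Real.log_two_lt_d9
    linarith
  rw [h4]
  linarith

/-- **the distribution inequality** -/
theorem count_t (hA : S_AVG) (hF : S_FNN) (hZ : S_ZER) {κ θ : ℝ} (h : 1 + κ < 2 * θ) :
    ∃ C : ℝ, 0 < C ∧ ∀ Ψ : (N : ℕ) → Set (DirichletCharacter ℂ N),
      (∀ N : ℕ, 0 < N → ((Ψ N).ncard : ℝ) ≤ (N : ℝ) ^ κ) →
      (∀ X : ℕ, 1 ≤ X → ∀ t : ℝ, 0 < t →
        ({n : ℕ | 1 ≤ n ∧ n ≤ X ∧ Big Ψ θ t n}.ncard : ℝ) ≤ C * X * (1 + Real.log X) / t ^ 2) ∧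
      ∀ η : ℝ, 0 ≤ η → ∀ X : ℕ, 1 ≤ X →
        ({n : ℕ | 1 ≤ n ∧ n ≤ X ∧ Big Ψ θ ((n : ℝ) ^ η) n}.ncard : ℝ) ≤
          C * (X : ℝ) ^ (max (1 - 2 * η) 0) * (1 + Real.log X) ^ 2 := by
  classical
  obtain ⟨D, D0, hD⟩ := hA
  obtain ⟨Z, Z0, hZ2⟩ := wt_of_pow h
  refine ⟨16 * Z * D, by positivity, fun Ψ hΨ => ?_⟩
  have hW := hZ2 Ψ hΨ
  refine ⟨fun X hX t ht => ?_, fun η hη X hX => ?_⟩
  · have X1 : (1 : ℝ) ≤ X := by exact_mod_cast hX
    have hlog := Real.log_nonneg X1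
    refine (count_blocks _ X).trans ?_
    calc ∑ j ∈ Finset.range (Nat.log 2 X + 1),
          (((Finset.Ico (2 ^ j) (2 ^ (j + 1))).filter (fun n => Big Ψ θ t n)).card : ℝ)
        ≤ ∑ j ∈ Finset.range (Nat.log 2 X + 1), (8 * Z * D * (1 + Real.log X) / t ^ 2) * (2 : ℝ) ^ j := by
          refine Finset.sum_le_sum fun j hj => ?_
          obtain ⟨h1, h2⟩ := log_block hX hj
          refine (block_big D0 hD hF hZ ht hW j).trans ?_
          rw [div_mul_eq_mul_div, div_le_div_iff_of_pos_right (by positivity)]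
          have h3 : 0 ≤ 4 * Z * D * (2 : ℝ) ^ j := by positivity
          nlinarith [mul_le_mul_of_nonneg_left h2 h3]
      _ = (8 * Z * D * (1 + Real.log X) / t ^ 2) * ∑ j ∈ Finset.range (Nat.log 2 X + 1), (2 : ℝ) ^ j := by
          rw [Finset.mul_sum]
      _ ≤ (8 * Z * D * (1 + Real.log X) / t ^ 2) * (2 * X) := by
          refine mul_le_mul_of_nonneg_left ?_ (by positivity)
          have h3 : ∑ j ∈ Finset.range (Nat.log 2 X + 1), (2 : ℝ) ^ j = 2 * (2 : ℝ) ^ (Nat.log 2 X) - 1 := by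
            rw [geom_sum_eq (by norm_num)]
            rw [pow_succ]
            ring
          have h4 : (2 : ℝ) ^ (Nat.log 2 X) ≤ X := by
            exact_mod_cast Nat.pow_log_le_self 2 (by omega)
          rw [h3]
          linarith
      _ = 16 * Z * D * X * (1 + Real.log X) / t ^ 2 := by ring
  · have X1 : (1 : ℝ) ≤ X := by exact_mod_cast hX
    have X0 : (0 : ℝ) < X := by linarith
    have hlog := Real.log_nonneg X1
    refine (count_blocks _ X).trans ?_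
    have hterm : ∀ j ∈ Finset.range (Nat.log 2 X + 1),
        (((Finset.Ico (2 ^ j) (2 ^ (j + 1))).filter (fun n : ℕ => Big Ψ θ ((n : ℝ) ^ η) n)).card : ℝ) ≤
          8 * Z * D * (X : ℝ) ^ (max (1 - 2 * η) 0) * (1 + Real.log X) := by
      intro j hj
      obtain ⟨h1, h2⟩ := log_block hX hj
      obtain ⟨p, hp⟩ : ∃ p : ℝ, p = (2 : ℝ) ^ j := ⟨_, rfl⟩
      have p1 : 1 ≤ p := by rw [hp]; exact one_le_pow₀ (by norm_num)
      have p0 : 0 < p := by linarith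
      have h3 : (((Finset.Ico (2 ^ j) (2 ^ (j + 1))).filter (fun n : ℕ => Big Ψ θ ((n : ℝ) ^ η) n)).card : ℝ) ≤
          (((Finset.Ico (2 ^ j) (2 ^ (j + 1))).filter (fun n => Big Ψ θ (p ^ η) n)).card : ℝ) := by
        have h4 : (Finset.Ico (2 ^ j) (2 ^ (j + 1))).filter (fun n : ℕ => Big Ψ θ ((n : ℝ) ^ η) n) ⊆
            (Finset.Ico (2 ^ j) (2 ^ (j + 1))).filter (fun n => Big Ψ θ (p ^ η) n) := by
          intro n hn
          rw [Finset.mem_filter] at hn ⊢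
          refine ⟨hn.1, hn.2.anti ?_⟩
          refine Real.rpow_le_rpow p0.le ?_ hη
          rw [hp]
          exact_mod_cast (Finset.mem_Ico.1 hn.1).1
        exact_mod_cast Finset.card_le_card h4
      refine h3.trans ((block_big D0 hD hF hZ (Real.rpow_pos_of_pos p0 _) hW j).trans ?_)
      rw [← hp]
      rw [← hp] at h1
      have h5 : (p ^ η) ^ 2 = p ^ (2 * η) := by
        rw [← Real.rpow_natCast (p ^ η) 2, ← Real.rpow_mul p0.le]
        congr 1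
        push_cast
        ring
      rw [h5]
      have h6 : 4 * Z * D * p * (1 + Real.log ((2 : ℝ) ^ (j + 1))) / p ^ (2 * η) =
          4 * Z * D * p ^ (1 - 2 * η) * (1 + Real.log ((2 : ℝ) ^ (j + 1))) := by
        rw [Real.rpow_sub p0, Real.rpow_one]
        ring
      rw [h6]
      have h7 : p ^ (1 - 2 * η) ≤ (X : ℝ) ^ (max (1 - 2 * η) 0) :=
        (Real.rpow_le_rpow_of_exponent_le p1 (le_max_left _ _)).trans
          (Real.rpow_le_rpow p0.le h1 (le_max_right _ _))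
      have hl : 0 ≤ 1 + Real.log ((2 : ℝ) ^ (j + 1)) := by
        have := Real.log_nonneg (show (1 : ℝ) ≤ 2 ^ (j + 1) from one_le_pow₀ (by norm_num))
        linarith
      calc 4 * Z * D * p ^ (1 - 2 * η) * (1 + Real.log ((2 : ℝ) ^ (j + 1)))
          ≤ 4 * Z * D * (X : ℝ) ^ (max (1 - 2 * η) 0) * (2 * (1 + Real.log X)) := by
            refine mul_le_mul ?_ h2 hl (by positivity)
            exact mul_le_mul_of_nonneg_left h7 (by positivity)
        _ = _ := by ring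
    have hJ : ((Nat.log 2 X : ℕ) : ℝ) + 1 ≤ 2 * (1 + Real.log X) := by
      have h4 : (Nat.log 2 X : ℝ) * Real.log 2 ≤ Real.log X := by
        rw [← Real.log_pow]
        refine Real.log_le_log (by positivity) ?_
        exact_mod_cast Nat.pow_log_le_self 2 (by omega)
      have h5 := Real.log_two_gt_d9
      have h6 : (0 : ℝ) ≤ Nat.log 2 X := Nat.cast_nonneg _
      nlinarith
    calc ∑ j ∈ Finset.range (Nat.log 2 X + 1),
          (((Finset.Ico (2 ^ j) (2 ^ (j + 1))).filter (fun n : ℕ => Big Ψ θ ((n : ℝ) ^ η) n)).card : ℝ)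
        ≤ ∑ _j ∈ Finset.range (Nat.log 2 X + 1), 8 * Z * D * (X : ℝ) ^ (max (1 - 2 * η) 0) * (1 + Real.log X) :=
          Finset.sum_le_sum hterm
      _ = (((Nat.log 2 X : ℕ) : ℝ) + 1) * (8 * Z * D * (X : ℝ) ^ (max (1 - 2 * η) 0) * (1 + Real.log X)) := by
          rw [Finset.sum_const, Finset.card_range, nsmul_eq_mul]
          push_cast
          ring
      _ ≤ (2 * (1 + Real.log X)) * (8 * Z * D * (X : ℝ) ^ (max (1 - 2 * η) 0) * (1 + Real.log X)) :=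
          mul_le_mul_of_nonneg_right hJ (by positivity)
      _ = _ := by ring

/-- powers of the logarithm -/
lemma log_pow_le (A : ℝ) (hA : 0 ≤ A) : ∃ c : ℝ, 0 < c ∧ ∀ x : ℝ, 1 ≤ x →
    (1 + Real.log x) ^ A ≤ c * x ^ (1 / 2 : ℝ) := by
  obtain ⟨e, he⟩ : ∃ e : ℝ, e = 1 / (2 * A + 2) := ⟨_, rfl⟩
  have e0 : 0 < e := by rw [he]; positivity
  refine ⟨(1 + 1 / e) ^ A, by positivity, fun x hx => ?_⟩
  have x0 : 0 < x := by linarith
  have hlog := Real.log_nonneg hx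
  have h1 : 1 + Real.log x ≤ (1 + 1 / e) * x ^ e := by
    have h2 := Real.log_le_rpow_div x0.le e0
    have h3 : 1 ≤ x ^ e := Real.one_le_rpow hx e0.le
    have h4 : (1 + 1 / e) * x ^ e = x ^ e + x ^ e / e := by ring
    rw [h4]
    linarith
  calc (1 + Real.log x) ^ A ≤ ((1 + 1 / e) * x ^ e) ^ A := Real.rpow_le_rpow (by linarith) h1 hA
    _ = (1 + 1 / e) ^ A * x ^ (e * A) := by
        rw [Real.mul_rpow (by positivity) (by positivity), ← Real.rpow_mul x0.le]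
    _ ≤ (1 + 1 / e) ^ A * x ^ (1 / 2 : ℝ) := by
        refine mul_le_mul_of_nonneg_left ?_ (by positivity)
        refine Real.rpow_le_rpow_of_exponent_le hx ?_
        rw [he, div_mul_eq_mul_div, one_mul, div_le_div_iff₀ (by positivity) (by norm_num)]
        linarith

/-- **powers of the logarithm instead of `n^η`** -/
theorem count_log (hA : S_AVG) (hF : S_FNN) (hZ : S_ZER) {κ θ : ℝ} (h : 1 + κ < 2 * θ) {A : ℝ} (hA0 : 0 ≤ A) :
    ∃ C : ℝ, 0 < C ∧ ∀ Ψ : (N : ℕ) → Set (DirichletCharacter ℂ N),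
      (∀ N : ℕ, 0 < N → ((Ψ N).ncard : ℝ) ≤ (N : ℝ) ^ κ) → ∀ X : ℕ, 1 ≤ X →
        ({n : ℕ | 1 ≤ n ∧ n ≤ X ∧ Big Ψ θ ((1 + Real.log n) ^ A) n}.ncard : ℝ) ≤
          C * X * (1 + Real.log X) ^ (1 - 2 * A) := by
  obtain ⟨C, C0, hC⟩ := count_t hA hF hZ h
  obtain ⟨c, c0, hc⟩ := log_pow_le (2 * A) (by positivity)
  refine ⟨c + C * 4 ^ A, by positivity, fun Ψ hΨ X hX => ?_⟩
  obtain ⟨h1, -⟩ := hC Ψ hΨ
  have X1 : (1 : ℝ) ≤ X := by exact_mod_cast hX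
  have X0 : (0 : ℝ) < X := by linarith
  have hlog := Real.log_nonneg X1
  obtain ⟨L, hL⟩ : ∃ L : ℝ, L = 1 + Real.log X := ⟨_, rfl⟩
  have L1 : 1 ≤ L := by rw [hL]; linarith
  have L0 : 0 < L := by linarith
  have h2 := h1 X hX ((L / 2) ^ A) (by positivity)
  have hsub : {n : ℕ | 1 ≤ n ∧ n ≤ X ∧ Big Ψ θ ((1 + Real.log n) ^ A) n} ⊆
      ((Finset.Icc 1 (Nat.sqrt X) : Finset ℕ) : Set ℕ) ∪ {n : ℕ | 1 ≤ n ∧ n ≤ X ∧ Big Ψ θ ((L / 2) ^ A) n} := by
    rintro n ⟨k1, k2, k3⟩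
    by_cases hn : n ≤ Nat.sqrt X
    · left
      rw [Finset.mem_coe, Finset.mem_Icc]
      exact ⟨k1, hn⟩
    · right
      refine ⟨k1, k2, k3.anti ?_⟩
      refine Real.rpow_le_rpow (by positivity) ?_ hA0
      have h3 : X < n * n := Nat.sqrt_lt.1 (not_le.1 hn)
      have h4 : (X : ℝ) ≤ (n : ℝ) * n := by exact_mod_cast h3.le
      have n0 : (0 : ℝ) < n := by exact_mod_cast k1
      have h5 : Real.log X ≤ Real.log n + Real.log n := by
        rw [← Real.log_mul n0.ne' n0.ne']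
        exact Real.log_le_log X0 h4
      rw [hL]
      linarith
  have hfin : (((Finset.Icc 1 (Nat.sqrt X) : Finset ℕ) : Set ℕ) ∪
      {n : ℕ | 1 ≤ n ∧ n ≤ X ∧ Big Ψ θ ((L / 2) ^ A) n}).Finite :=
    (Finset.finite_toSet _).union ((Set.finite_Icc 1 X).subset fun n hn => ⟨hn.1, hn.2.1⟩)
  have h3 : ({n : ℕ | 1 ≤ n ∧ n ≤ X ∧ Big Ψ θ ((1 + Real.log n) ^ A) n}.ncard : ℝ) ≤
      (Nat.sqrt X : ℝ) + ({n : ℕ | 1 ≤ n ∧ n ≤ X ∧ Big Ψ θ ((L / 2) ^ A) n}.ncard : ℝ) := by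
    have h4 := (Set.ncard_le_ncard hsub hfin).trans (Set.ncard_union_le _ _)
    rw [Set.ncard_coe_finset, Nat.card_Icc, Nat.add_sub_cancel] at h4
    exact_mod_cast h4
  have h4 : (Nat.sqrt X : ℝ) ≤ c * X * L ^ (1 - 2 * A) := by
    have h5 : (Nat.sqrt X : ℝ) ≤ (X : ℝ) ^ (1 / 2 : ℝ) := by
      rw [← Real.sqrt_eq_rpow]
      exact Real.nat_sqrt_le_real_sqrt
    have h6 := hc X X1
    rw [← hL] at h6
    have h7 : L ^ (1 - 2 * A) = L / L ^ (2 * A) := by rw [Real.rpow_sub L0, Real.rpow_one]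
    have h8 : (X : ℝ) = (X : ℝ) ^ (1 / 2 : ℝ) * (X : ℝ) ^ (1 / 2 : ℝ) := by
      rw [← Real.rpow_add X0]
      norm_num
    have h9 : 0 < L ^ (2 * A) := by positivity
    rw [h7, ← mul_div_assoc, le_div_iff₀ h9]
    calc (Nat.sqrt X : ℝ) * L ^ (2 * A) ≤ (X : ℝ) ^ (1 / 2 : ℝ) * (c * (X : ℝ) ^ (1 / 2 : ℝ)) :=
          mul_le_mul h5 h6 h9.le (by positivity)
      _ = c * X := by
          nth_rewrite 3 [h8]
          ring
      _ ≤ c * X * L := le_mul_of_one_le_right (by positivity) L1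
  have h5 : C * X * (1 + Real.log X) / ((L / 2) ^ A) ^ 2 = C * 4 ^ A * X * L ^ (1 - 2 * A) := by
    have h6 : ((L / 2) ^ A) ^ 2 = L ^ (2 * A) / 4 ^ A := by
      have h7 : ((L / 2) ^ A) ^ 2 = ((L / 2) ^ 2) ^ A := by
        rw [← Real.rpow_natCast ((L / 2) ^ A) 2, ← Real.rpow_mul (by positivity), mul_comm A,
          Real.rpow_mul (by positivity), Real.rpow_natCast]
      have h8 : L ^ (2 * A) = (L ^ 2) ^ A := by
        rw [Real.rpow_mul L0.le]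
        norm_num
      rw [h7, h8, ← Real.div_rpow (by positivity) (by norm_num)]
      congr 1
      ring
    have h7 : L ^ (1 - 2 * A) = L / L ^ (2 * A) := by rw [Real.rpow_sub L0, Real.rpow_one]
    have h9 : 0 < L ^ (2 * A) := by positivity
    rw [h6, h7, ← hL]
    field_simp
  rw [h5] at h2
  calc ({n : ℕ | 1 ≤ n ∧ n ≤ X ∧ Big Ψ θ ((1 + Real.log n) ^ A) n}.ncard : ℝ)
      ≤ c * X * L ^ (1 - 2 * A) + C * 4 ^ A * X * L ^ (1 - 2 * A) := by linarith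
    _ = (c + C * 4 ^ A) * X * L ^ (1 - 2 * A) := by ring
    _ = _ := by rw [hL]

end Pool.Agent.P8H49.WT
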