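import Pool.Agent.Results.MP_9d5c58_nt.AvoidingLaw
import Pool.Agent.P8H49.WT.Add

/-!
# The trajectories of Matthews' map which avoid the multiples of three, in the form needed for the applications
-/

set_option autoImplicit false

namespace Pool.Agent.P8H49.WT

open Pool.Agent.Results.MP_9d5c58_nt.AvoidingLaw (T Avoids)

lemma avoids_ne {x : ℤ} (h : Avoids x) : x ≠ 0 := by
  intro h0
  apply h 0
  rw [h0]
  exact dvd_zero _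

/-- the number of the integers `x`, `|x| ≤ X`, whose trajectory avoids the multiples of three -/
theorem count_avoid : ∃ C : ℝ, 0 ≤ C ∧ ∀ X : ℝ, 1 ≤ X →
    {x : ℤ | Avoids x ∧ |(x : ℝ)| ≤ X}.Finite ∧ ({x : ℤ | Avoids x ∧ |(x : ℝ)| ≤ X}.ncard : ℝ) ≤ C * X ^ (0.629 : ℝ) := by
  obtain ⟨C, hC, h, -⟩ := Pool.Agent.Results.MP_9d5c58_nt.AvoidingLaw.result
  refine ⟨C * 2, by positivity, fun X hX => ?_⟩
  have e : {x : ℤ | Avoids x ∧ |(x : ℝ)| ≤ X} = {x : ℤ | (-X ≤ (x : ℝ) ∧ (x : ℝ) ≤ -X + 2 * X) ∧ Avoids x} := by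
    ext x
    simp only [Set.mem_ofPred_eq]
    constructor
    · rintro ⟨h1, h2⟩
      obtain ⟨h3, h4⟩ := abs_le.1 h2
      exact ⟨⟨h3, by linarith⟩, h1⟩
    · rintro ⟨⟨h1, h2⟩, h3⟩
      exact ⟨h3, abs_le.2 ⟨h1, by linarith⟩⟩
  have hfin : {x : ℤ | Avoids x ∧ |(x : ℝ)| ≤ X}.Finite := by
    refine (Set.finite_Icc (-⌈X⌉) ⌈X⌉).subset fun x hx => ?_
    obtain ⟨h3, h4⟩ := abs_le.1 hx.2
    have h5 := Int.le_ceil X
    rw [Set.mem_Icc]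
    constructor
    · have : ((-⌈X⌉ : ℤ) : ℝ) ≤ x := by
        push_cast
        linarith
      exact_mod_cast this
    · have : (x : ℝ) ≤ ((⌈X⌉ : ℤ) : ℝ) := h4.trans h5
      exact_mod_cast this
  refine ⟨hfin, ?_⟩
  rw [e]
  have h1 := h (-X) (2 * X) (by linarith)
  refine h1.trans ?_
  have h2 : (2 * X) ^ (0.629 : ℝ) = 2 ^ (0.629 : ℝ) * X ^ (0.629 : ℝ) := Real.mul_rpow (by norm_num) (by linarith)
  have h3 : (2 : ℝ) ^ (0.629 : ℝ) ≤ 2 ^ (1 : ℝ) := Real.rpow_le_rpow_of_exponent_le (by norm_num) (by norm_num)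
  rw [Real.rpow_one] at h3
  have h4 : 0 ≤ X ^ (0.629 : ℝ) := Real.rpow_nonneg (by linarith) _
  rw [h2]
  calc C * (2 ^ (0.629 : ℝ) * X ^ (0.629 : ℝ)) ≤ C * (2 * X ^ (0.629 : ℝ)) :=
        mul_le_mul_of_nonneg_left (mul_le_mul_of_nonneg_right h3 h4) hC.le
    _ = C * 2 * X ^ (0.629 : ℝ) := by ring

theorem few_avoid : Few (fun n => ∀ x : ℤ, x.natAbs = n → ¬ Avoids x) (0.629 : ℝ) := by
  intro ε hε
  obtain ⟨C, hC, h⟩ := count_avoid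
  refine ⟨C, fun X hX => ?_⟩
  have hX1 : (1 : ℝ) ≤ X := by exact_mod_cast hX
  obtain ⟨hfin, hcard⟩ := h X hX1
  have hsub : {n : ℕ | 1 ≤ n ∧ n ≤ X ∧ ¬ ∀ x : ℤ, x.natAbs = n → ¬ Avoids x} ⊆
      Int.natAbs '' {x : ℤ | Avoids x ∧ |(x : ℝ)| ≤ X} := by
    rintro n ⟨h1, h2, h3⟩
    push Not at h3
    obtain ⟨x, h4, h5⟩ := h3
    refine ⟨x, ⟨h5, ?_⟩, h4⟩
    have h6 : |(x : ℝ)| = (x.natAbs : ℝ) := by
      rw [Nat.cast_natAbs, Int.cast_abs]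
    rw [h6, h4]
    exact_mod_cast h2
  have h1 := (Set.ncard_le_ncard hsub (hfin.image _)).trans (Set.ncard_image_le hfin)
  have h2 : ({n : ℕ | 1 ≤ n ∧ n ≤ X ∧ ¬ ∀ x : ℤ, x.natAbs = n → ¬ Avoids x}.ncard : ℝ) ≤
      ({x : ℤ | Avoids x ∧ |(x : ℝ)| ≤ X}.ncard : ℝ) := by exact_mod_cast h1
  refine (h2.trans hcard).trans ?_
  refine mul_le_mul_of_nonneg_left ?_ hC
  exact Real.rpow_le_rpow_of_exponent_le hX1 (by linarith)

lemma avoid_iff (w B : ℝ) : (∃ n : ℕ, 1 ≤ n ∧ |(n : ℝ) - w| ≤ B ∧ ¬ ∀ x : ℤ, x.natAbs = n → ¬ Avoids x) ↔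
    ∃ x : ℤ, abs (|(x : ℝ)| - w) ≤ B ∧ Avoids x := by
  have h6 : ∀ x : ℤ, |(x : ℝ)| = (x.natAbs : ℝ) := by
    intro x
    rw [Nat.cast_natAbs, Int.cast_abs]
  constructor
  · rintro ⟨n, h1, h2, h3⟩
    push Not at h3
    obtain ⟨x, h4, h5⟩ := h3
    refine ⟨x, ?_, h5⟩
    rw [h6, h4]
    exact h2
  · rintro ⟨x, h1, h2⟩
    have h3 := avoids_ne h2
    refine ⟨x.natAbs, by omega, ?_, fun h => h x rfl h2⟩
    rw [← h6]
    exact h1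

end Pool.Agent.P8H49.WT
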