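import Pool.Agent.P8H49.WT.All

/-!
# Project WT: one exceptional set for all forms
-/

set_option autoImplicit false

open UpperHalfPlane MeasureTheory CongruenceSubgroup
open scoped MatrixGroups ComplexConjugate

namespace Pool.Agent.P8H49.WT

lemma univ_card (N : ℕ) (hN : 0 < N) :
    ((Set.univ : Set (DirichletCharacter ℂ N)).ncard : ℝ) ≤ (N : ℝ) ^ (1 : ℝ) := by
  obtain ⟨M, rfl⟩ : ∃ M, N = M + 1 := ⟨N - 1, by omega⟩
  rw [Real.rpow_one, Set.ncard_univ]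
  exact_mod_cast Pool.Agent.P8H65.WT.card_char M

lemma exp_sqrt_le {ε : ℝ} (hε : 0 < ε) {x : ℝ} (hx : 1 ≤ x) :
    Real.exp (√(Real.log x)) ≤ Real.exp (1 / (4 * ε)) * x ^ ε := by
  have x0 : 0 < x := by linarith
  have hlog := Real.log_nonneg hx
  rw [Real.rpow_def_of_pos x0, ← Real.exp_add, Real.exp_le_exp]
  obtain ⟨u, hu⟩ : ∃ u : ℝ, u = √(Real.log x) := ⟨_, rfl⟩
  have h1 : Real.log x = u ^ 2 := by rw [hu, Real.sq_sqrt hlog]
  rw [← hu, h1]
  have h2 : 1 / (4 * ε) + u ^ 2 * ε - u = (2 * ε * u - 1) ^ 2 / (4 * ε) := by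
    field_simp
    ring
  have h3 : 0 ≤ (2 * ε * u - 1) ^ 2 / (4 * ε) := by positivity
  linarith

/-- **one exceptional set** -/
theorem one_set : ∃ (E : Set ℕ) (C : ℝ), 0 < C ∧
    (∀ X : ℕ, 1 ≤ X → ({n : ℕ | 1 ≤ n ∧ n ≤ X ∧ n ∈ E}.ncard : ℝ) ≤ C * X * Real.exp (-√(Real.log X))) ∧
    ∀ (N : ℕ) (χ : DirichletCharacter ℂ N), 0 < N → 4 ∣ N → ∀ (f : ℍ → ℂ) (a : ℕ → ℂ), IsCusp N χ f a →
      ∀ ε : ℝ, 0 < ε → ∃ C' : ℝ, ∀ n : ℕ, 1 ≤ n → n ∉ E → ‖a n‖ ≤ C' * (n : ℝ) ^ (1 / 4 + ε) := by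
  obtain ⟨D, D0, hD⟩ := count_t avg' fnn' zer' (κ := 1) (θ := 2) (by norm_num)
  obtain ⟨hD1, -⟩ := hD (fun _ => Set.univ) univ_card
  refine ⟨{n : ℕ | Big (fun _ => Set.univ) 2 (Real.exp (√(Real.log n))) n}, Real.exp (1 / 2) + 25 / 2 * D,
    by positivity, fun X hX => ?_, fun N χ hN h4 f a hf ε hε => ?_⟩
  · have X1 : (1 : ℝ) ≤ X := by exact_mod_cast hX
    have X0 : (0 : ℝ) < X := by linarith
    have hlog := Real.log_nonneg X1
    obtain ⟨u, hu⟩ : ∃ u : ℝ, u = √(Real.log X) := ⟨_, rfl⟩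
    have u0 : 0 ≤ u := by rw [hu]; exact Real.sqrt_nonneg _
    have hL : Real.log X = u ^ 2 := by rw [hu, Real.sq_sqrt hlog]
    have hX2 : (X : ℝ) = Real.exp (u ^ 2) := by rw [← hL, Real.exp_log X0]
    have h2 := hD1 X hX (Real.exp (7 / 10 * u)) (Real.exp_pos _)
    have hsub : {n : ℕ | 1 ≤ n ∧ n ≤ X ∧ n ∈ {n : ℕ | Big (fun _ => Set.univ) 2 (Real.exp (√(Real.log n))) n}} ⊆
        ((Finset.Icc 1 (Nat.sqrt X) : Finset ℕ) : Set ℕ) ∪
          {n : ℕ | 1 ≤ n ∧ n ≤ X ∧ Big (fun _ => Set.univ) 2 (Real.exp (7 / 10 * u)) n} := by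
      rintro n ⟨k1, k2, k3⟩
      by_cases hn : n ≤ Nat.sqrt X
      · left
        rw [Finset.mem_coe, Finset.mem_Icc]
        exact ⟨k1, hn⟩
      · right
        refine ⟨k1, k2, Big.anti k3 ?_⟩
        rw [Real.exp_le_exp]
        have h3 : X < n * n := Nat.sqrt_lt.1 (not_le.1 hn)
        have h4 : (X : ℝ) ≤ (n : ℝ) * n := by exact_mod_cast h3.le
        have n0 : (0 : ℝ) < n := by exact_mod_cast k1
        have h5 : Real.log X ≤ Real.log n + Real.log n := by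
          rw [← Real.log_mul n0.ne' n0.ne']
          exact Real.log_le_log X0 h4
        refine Real.le_sqrt_of_sq_le ?_
        nlinarith [sq_nonneg u]
    have hfin : (((Finset.Icc 1 (Nat.sqrt X) : Finset ℕ) : Set ℕ) ∪
        {n : ℕ | 1 ≤ n ∧ n ≤ X ∧ Big (fun _ => Set.univ) 2 (Real.exp (7 / 10 * u)) n}).Finite :=
      (Finset.finite_toSet _).union ((Set.finite_Icc 1 X).subset fun n hn => ⟨hn.1, hn.2.1⟩)
    have h3 : ({n : ℕ | 1 ≤ n ∧ n ≤ X ∧
          n ∈ {n : ℕ | Big (fun _ => Set.univ) 2 (Real.exp (√(Real.log n))) n}}.ncard : ℝ) ≤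
        (Nat.sqrt X : ℝ) +
          ({n : ℕ | 1 ≤ n ∧ n ≤ X ∧ Big (fun _ => Set.univ) 2 (Real.exp (7 / 10 * u)) n}.ncard : ℝ) := by
      have h4 := (Set.ncard_le_ncard hsub hfin).trans (Set.ncard_union_le _ _)
      rw [Set.ncard_coe_finset, Nat.card_Icc, Nat.add_sub_cancel] at h4
      exact_mod_cast h4
    have h4 : (Nat.sqrt X : ℝ) ≤ Real.exp (1 / 2) * X * Real.exp (-u) := by
      have h5 : (Nat.sqrt X : ℝ) ≤ Real.exp (u ^ 2 / 2) := by
        refine Real.nat_sqrt_le_real_sqrt.trans ?_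
        rw [Real.sqrt_le_left (Real.exp_pos _).le, hX2, ← Real.exp_nat_mul]
        rw [Real.exp_le_exp]
        push_cast
        linarith
      refine h5.trans ?_
      rw [hX2, ← Real.exp_add, ← Real.exp_add, Real.exp_le_exp]
      nlinarith [sq_nonneg (u - 1)]
    have h5 : D * X * (1 + Real.log X) / Real.exp (7 / 10 * u) ^ 2 ≤ 25 / 2 * D * X * Real.exp (-u) := by
      have h6 : Real.exp (7 / 10 * u) ^ 2 = Real.exp u * Real.exp (2 / 5 * u) := by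
        rw [← Real.exp_nat_mul, ← Real.exp_add]
        congr 1
        push_cast
        ring
      have h7 : 1 + u ^ 2 ≤ 25 / 2 * Real.exp (2 / 5 * u) := by
        have h8 := Real.quadratic_le_exp_of_nonneg (show 0 ≤ 2 / 5 * u by positivity)
        nlinarith [sq_nonneg u]
      rw [h6, hL, div_le_iff₀ (by positivity), Real.exp_neg]
      have h8 : 25 / 2 * D * X * (Real.exp u)⁻¹ * (Real.exp u * Real.exp (2 / 5 * u)) =
          D * X * (25 / 2 * Real.exp (2 / 5 * u)) := by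
        have := (Real.exp_pos u).ne'
        field_simp
      rw [h8]
      exact mul_le_mul_of_nonneg_left h7 (by positivity)
    rw [← hu]
    calc _ ≤ _ := h3
      _ ≤ Real.exp (1 / 2) * X * Real.exp (-u) + 25 / 2 * D * X * Real.exp (-u) := add_le_add h4 (h2.trans h5)
      _ = _ := by ring
  · refine ⟨√(nrm N f).toReal * (Real.exp (1 / (4 * ε)) * (N : ℝ) ^ (2 : ℝ)), fun n hn hE => ?_⟩
    have n1 : (1 : ℝ) ≤ n := by exact_mod_cast hn
    have n0 : (0 : ℝ) < n := by linarith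
    have h1 : Bound (fun _ => Set.univ) 2 (Real.exp (√(Real.log n))) n := by
      by_contra hcon
      exact hE (not_bound.1 hcon)
    refine (h1 N hN h4 χ (Set.mem_univ _) f a hf).trans ?_
    rw [mul_assoc (√(nrm N f).toReal)]
    refine mul_le_mul_of_nonneg_left ?_ (Real.sqrt_nonneg _)
    have h2 := exp_sqrt_le hε n1
    calc Real.exp (√(Real.log n)) * (N : ℝ) ^ (2 : ℝ) * (n : ℝ) ^ (1 / 4 : ℝ)
        ≤ Real.exp (1 / (4 * ε)) * (n : ℝ) ^ ε * (N : ℝ) ^ (2 : ℝ) * (n : ℝ) ^ (1 / 4 : ℝ) := by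
          refine mul_le_mul_of_nonneg_right ?_ (by positivity)
          exact mul_le_mul_of_nonneg_right h2 (by positivity)
      _ = Real.exp (1 / (4 * ε)) * (N : ℝ) ^ (2 : ℝ) * (n : ℝ) ^ (1 / 4 + ε) := by
          rw [Real.rpow_add n0]
          ring

end Pool.Agent.P8H49.WT
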