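import Pool.Agent.P8H49.WT.One

/-!
# Project WT: the divisors of `n` with a square quotient
-/

set_option autoImplicit false

open UpperHalfPlane

namespace Pool.Agent.P8H49.WT

/-- The bound `|a_f(r)| ≤ ‖f‖ N^θ r^(1/4 + η)` holds for all `r` such that `n / r` is a square (in particular for `r = n` and for
the squarefree part `r` of `n`), for all levels `N` divisible by `4`, all characters `χ` in `Ψ N` and all cusp forms `f` in
`S_{3/2}(N, χ)`. -/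
def BoundSq (Ψ : (N : ℕ) → Set (DirichletCharacter ℂ N)) (θ η : ℝ) (n : ℕ) : Prop :=
  ∀ r t : ℕ, 1 ≤ r → n = r * t ^ 2 → Bound Ψ θ ((r : ℝ) ^ η) r

lemma few_sq {P : ℕ → Prop} {s : ℝ} (hs : 0 ≤ s) (h : Few P s) :
    Few (fun n => ∀ r t : ℕ, 1 ≤ r → n = r * t ^ 2 → P r) (max s (1 / 2)) := by
  classical
  intro ε hε
  obtain ⟨C, hC⟩ := h (ε / 2) (half_pos hε)
  have hC0 : 0 ≤ C := by
    have h1 := hC 1 le_rfl
    rw [Nat.cast_one, Real.one_rpow, mul_one] at h1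
    exact le_trans (Nat.cast_nonneg _) h1
  obtain ⟨q, hq⟩ : ∃ q : ℝ, q = max s (1 / 2) + ε / 2 := ⟨_, rfl⟩
  have hq1 : 1 / 2 + ε / 2 ≤ q := by rw [hq]; linarith [le_max_right s (1 / 2 : ℝ)]
  have hq2 : s + ε / 2 ≤ q := by rw [hq]; linarith [le_max_left s (1 / 2 : ℝ)]
  have hsum : Summable (fun t : ℕ => ((t : ℝ) ^ (-(2 * q)))) := Real.summable_nat_rpow.2 (by linarith)
  refine ⟨C * ∑' t : ℕ, ((t : ℝ) ^ (-(2 * q))), fun X hX => ?_⟩
  have X1 : (1 : ℝ) ≤ X := by exact_mod_cast hX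
  have X0 : (0 : ℝ) < X := by linarith
  obtain ⟨B, hB⟩ : ∃ B : ℕ → Set ℕ, B = fun t => {r : ℕ | 1 ≤ r ∧ r ≤ X / t ^ 2 ∧ ¬ P r} := ⟨_, rfl⟩
  have hBf : ∀ t, (B t).Finite := fun t => by
    rw [hB]
    exact (Set.finite_Icc 1 (X / t ^ 2)).subset fun r hr => ⟨hr.1, hr.2.1⟩
  have hsub : {n : ℕ | 1 ≤ n ∧ n ≤ X ∧ ¬ ∀ r t : ℕ, 1 ≤ r → n = r * t ^ 2 → P r} ⊆
      (((Finset.Icc 1 X).biUnion (fun t => (hBf t).toFinset.image (fun r => r * t ^ 2)) : Finset ℕ) : Set ℕ) := by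
    rintro n ⟨h1, h2, h3⟩
    push Not at h3
    obtain ⟨r, t, hr, hn, hP⟩ := h3
    have ht : 1 ≤ t := by
      rcases Nat.eq_zero_or_pos t with h0 | h0
      · rw [h0] at hn
        simp at hn
        omega
      · exact h0
    have ht2 : t ≤ t ^ 2 := Nat.le_self_pow (by norm_num) t
    have htX : t ≤ X := by
      calc t ≤ t ^ 2 := ht2
        _ ≤ r * t ^ 2 := Nat.le_mul_of_pos_left _ (by omega)
        _ ≤ X := by rw [← hn]; exact h2
    rw [Finset.mem_coe, Finset.mem_biUnion]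
    refine ⟨t, Finset.mem_Icc.2 ⟨ht, htX⟩, ?_⟩
    rw [Finset.mem_image]
    refine ⟨r, ?_, hn.symm⟩
    rw [Set.Finite.mem_toFinset, hB]
    refine ⟨hr, ?_, hP⟩
    rw [Nat.le_div_iff_mul_le (by positivity), ← hn]
    exact h2
  have hone : ∀ t ∈ Finset.Icc 1 X, (((hBf t).toFinset.image (fun r => r * t ^ 2)).card : ℝ) ≤
      C * (X : ℝ) ^ q * (t : ℝ) ^ (-(2 * q)) := by
    intro t ht
    have ht1 := (Finset.mem_Icc.1 ht).1
    have t0 : (0 : ℝ) < t := by exact_mod_cast ht1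
    have h1 : ((hBf t).toFinset.image (fun r => r * t ^ 2)).card ≤ (B t).ncard := by
      refine Finset.card_image_le.trans ?_
      rw [Set.ncard_eq_toFinset_card (B t) (hBf t)]
    refine le_trans (by exact_mod_cast h1 : _ ≤ ((B t).ncard : ℝ)) ?_
    rcases Nat.eq_zero_or_pos (X / t ^ 2) with h0 | h0
    · have h2 : B t = ∅ := by
        rw [hB]
        refine Set.eq_empty_of_forall_notMem fun r hr => ?_
        have h3 := hr.1
        have h4 := hr.2.1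
        omega
      rw [h2, Set.ncard_empty, Nat.cast_zero]
      positivity
    · have h2 := hC (X / t ^ 2) h0
      have h3 : (((X / t ^ 2 : ℕ) : ℕ) : ℝ) ≤ (X : ℝ) / (t : ℝ) ^ 2 := by
        have := @Nat.cast_div_le ℝ _ _ _ X (t ^ 2)
        push_cast at this
        exact this
      have h4 : (1 : ℝ) ≤ ((X / t ^ 2 : ℕ) : ℝ) := by exact_mod_cast h0
      have h5 : (((X / t ^ 2 : ℕ) : ℕ) : ℝ) ^ (s + ε / 2) ≤ (X : ℝ) ^ q * (t : ℝ) ^ (-(2 * q)) := by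
        calc (((X / t ^ 2 : ℕ) : ℕ) : ℝ) ^ (s + ε / 2) ≤ (((X / t ^ 2 : ℕ) : ℕ) : ℝ) ^ q :=
              Real.rpow_le_rpow_of_exponent_le h4 hq2
          _ ≤ ((X : ℝ) / (t : ℝ) ^ 2) ^ q := Real.rpow_le_rpow (by linarith) h3 (by linarith)
          _ = (X : ℝ) ^ q * (t : ℝ) ^ (-(2 * q)) := by
              rw [Real.div_rpow X0.le (by positivity), ← Real.rpow_natCast (t : ℝ) 2, ← Real.rpow_mul t0.le,
                Real.rpow_neg t0.le, div_eq_mul_inv]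
              push_cast
              rfl
      rw [hB]
      refine h2.trans ?_
      rw [mul_assoc]
      exact mul_le_mul_of_nonneg_left h5 hC0
  have h1 : ({n : ℕ | 1 ≤ n ∧ n ≤ X ∧ ¬ ∀ r t : ℕ, 1 ≤ r → n = r * t ^ 2 → P r}.ncard : ℝ) ≤
      ∑ t ∈ Finset.Icc 1 X, (((hBf t).toFinset.image (fun r => r * t ^ 2)).card : ℝ) := by
    have h2 := Set.ncard_le_ncard hsub (Finset.finite_toSet _)
    rw [Set.ncard_coe_finset] at h2
    exact_mod_cast h2.trans Finset.card_biUnion_le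
  calc ({n : ℕ | 1 ≤ n ∧ n ≤ X ∧ ¬ ∀ r t : ℕ, 1 ≤ r → n = r * t ^ 2 → P r}.ncard : ℝ)
      ≤ ∑ t ∈ Finset.Icc 1 X, C * (X : ℝ) ^ q * (t : ℝ) ^ (-(2 * q)) := h1.trans (Finset.sum_le_sum hone)
    _ = C * (X : ℝ) ^ q * ∑ t ∈ Finset.Icc 1 X, (t : ℝ) ^ (-(2 * q)) := by rw [Finset.mul_sum]
    _ ≤ C * (X : ℝ) ^ q * ∑' t : ℕ, ((t : ℝ) ^ (-(2 * q))) := by
        refine mul_le_mul_of_nonneg_left ?_ (by positivity)
        exact hsum.sum_le_tsum _ (fun t _ => by positivity)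
    _ ≤ C * (X : ℝ) ^ (max s (1 / 2) + ε) * ∑' t : ℕ, ((t : ℝ) ^ (-(2 * q))) := by
        refine mul_le_mul_of_nonneg_right ?_ (tsum_nonneg fun t => by positivity)
        refine mul_le_mul_of_nonneg_left ?_ hC0
        refine Real.rpow_le_rpow_of_exponent_le X1 ?_
        rw [hq]
        linarith
    _ = _ := by ring

/-- the count for `BoundSq` -/
theorem few_boundSq {κ θ : ℝ} (h : 1 + κ < 2 * θ) {Ψ : (N : ℕ) → Set (DirichletCharacter ℂ N)}
    (hΨ : ∀ N : ℕ, 0 < N → ((Ψ N).ncard : ℝ) ≤ (N : ℝ) ^ κ) {η : ℝ} (hη : 0 ≤ η) :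
    Few (fun n : ℕ => BoundSq Ψ θ η n) (max (1 - 2 * η) (1 / 2)) := by
  have h1 := few_sq (le_max_right _ _) (few h hΨ hη)
  have e : max (max (1 - 2 * η) 0) (1 / 2) = max (1 - 2 * η) (1 / 2 : ℝ) := by
    rw [max_assoc, max_eq_right (show (0 : ℝ) ≤ 1 / 2 by norm_num)]
  rw [e] at h1
  exact h1

end Pool.Agent.P8H49.WT
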